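import Pool.Agent.Lib.MP_e26b79_pr.Chain

namespace Pool.Agent.Lib.MP_e26b79_ns
open Finset MeasureTheory Pool.Agent.Lib.MP_e26b79_pr

variable {α ι : Type*} [DecidableEq ι]

section chain
variable {σ : ι → Finset α → Finset α} {q : ι → ℝ} {E : Finset ι} {L : Finset α}
  (hq : ∀ e ∈ E, 0 ≤ q e ∧ q e ≤ 1)
  (h1 : ∀ e ∈ E, ∀ T, T ⊆ L → σ e T ⊆ L) (h2 : ∀ e ∈ E, ∀ T, T ⊆ L → σ e (σ e T) = T)

include h1 h2 in
theorem K_sym (u v : Finset α → ℝ) :
    Ex L (fun T => u T * Kop σ q E v T) = Ex L (fun T => Kop σ q E u T * v T) := by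
  simp only [Kop, mul_sum, sum_mul]
  rw [Ex_sum, Ex_sum]
  refine sum_congr rfl fun β hβ => ?_
  have t := tau_inv h1 h2 (mem_powerset.1 hβ)
  rw [← Ex_invol _ t.1 t.2]
  exact Ex_congr fun T hT => by rw [t.2 T hT]; ring

include h1 h2 in
theorem K_shift (f : Finset α → ℝ) (k : ℕ) : ∀ i j,
    Ex L (fun T => (Kop σ q E)^[i] f T * (Kop σ q E)^[j + k] f T) =
      Ex L (fun T => (Kop σ q E)^[i + k] f T * (Kop σ q E)^[j] f T) := by
  induction k with
  | zero => exact fun _ _ => rfl
  | succ k ih =>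
    intro i j
    rw [← add_assoc, Function.iterate_succ_apply', K_sym h1 h2, ← Function.iterate_succ_apply' (Kop σ q E),
      ih, Nat.succ_eq_add_one, add_assoc, add_comm 1 k]

include h1 h2 in
theorem Ex_iter (f : Finset α → ℝ) (k : ℕ) : Ex L ((Kop σ q E)^[k] f) = Ex L f := by
  induction k with
  | zero => rfl
  | succ k ih => rw [Function.iterate_succ_apply', Ex_Kop h1 h2, ih]

theorem iter_sub (f : Finset α → ℝ) (p : ℝ) (k : ℕ) :
    (Kop σ q E)^[k] (fun T => f T - p) = fun T => (Kop σ q E)^[k] f T - p := by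
  induction k with
  | zero => rfl
  | succ k ih =>
    rw [Function.iterate_succ_apply', Function.iterate_succ_apply', ih]
    funext T
    have := Kop_lin (σ := σ) (q := q) (E := E) ((Kop σ q E)^[k] f) ((Kop σ q E)^[k] f) 1 0 (-p) T
    simpa [sub_eq_add_neg] using this

variable {ι' : Type*} {D : Finset ι'} {ed : ι' → ι} (hD : ∀ x ∈ D, ed x ∈ E)
  (hinj : Set.InjOn ed D) {w : ℝ} (hw0 : 0 ≤ w) (hw : ∀ x ∈ D, w ≤ wt q E {ed x})
  (hw' : D.card * w ≤ wt q E ∅)

include hq h1 h2 hD hinj hw0 hw hw' in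
theorem K_drop (u : Finset α → ℝ) :
    w / 2 * ∑ x ∈ D, Ex L (fun T => (u T - u (σ (ed x) T)) ^ 2) ≤
      Ex L (fun T => u T ^ 2) - Ex L (fun T => Kop σ q E u T ^ 2) := by
  rw [← Ex_Kop (q := q) h1 h2 (fun T => u T ^ 2), ← Ex_sub, ← Ex_sum, ← Ex_mul_left]
  refine Ex_mono fun T _ => ?_
  obtain ⟨a, ha⟩ : ∃ a, a = Kop σ q E u T := ⟨_, rfl⟩
  have key : Kop σ q E (fun T => u T ^ 2) T - Kop σ q E u T ^ 2 =
      ∑ β ∈ E.powerset, wt q E β * (u (tau σ β T) - a) ^ 2 := by
    have := Kop_lin (σ := σ) (q := q) (E := E) (fun T => u T ^ 2) u 1 (-2 * a) (a ^ 2) T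
    rw [← ha] at this ⊢
    rw [show Kop σ q E (fun T => u T ^ 2) T - a ^ 2 =
      1 * Kop σ q E (fun T => u T ^ 2) T + -2 * a * a + a ^ 2 by ring, ← this, Kop]
    exact sum_congr rfl fun β _ => by ring
  have t0 : tau σ ∅ T = T := by
    rcases tau_cases σ ∅ with ⟨e, h, -⟩ | h
    · exact absurd h.symm (singleton_ne_empty e)
    · rw [h]; rfl
  rw [key]
  refine le_trans ?_ (sum_le_sum_of_subset_of_nonneg
    (s := insert ∅ (D.image fun x => ({ed x} : Finset ι))) (fun β hβ => ?_)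
    fun β _ _ => mul_nonneg (wt_nonneg hq β) (sq_nonneg _))
  · rw [sum_insert (by simp), sum_image fun x hx y hy h => hinj hx hy (singleton_injective h), t0,
      mul_sum]
    simp only [tau_single]
    calc _ ≤ ∑ x ∈ D, (w * (u T - a) ^ 2 + wt q E {ed x} * (u (σ (ed x) T) - a) ^ 2) := by
          refine sum_le_sum fun x hx => ?_
          have e1 := mul_le_mul_of_nonneg_right (hw x hx) (sq_nonneg (u (σ (ed x) T) - a))
          have e2 := mul_nonneg hw0 (sq_nonneg (u T + u (σ (ed x) T) - 2 * a))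
          nlinarith
      _ ≤ _ := by
          rw [sum_add_distrib, sum_const, nsmul_eq_mul, ← mul_assoc]
          have := mul_le_mul_of_nonneg_right hw' (sq_nonneg (u T - a))
          linarith
  · rcases mem_insert.1 hβ with rfl | hβ
    · simp
    · obtain ⟨x, hx, rfl⟩ := mem_image.1 hβ
      simpa using hD x hx

include hq h1 h2 hD hinj hw0 hw hw' in
/-- the covariance of the chain after an even number of steps -/
theorem chain_cov {f : Finset α → ℝ} (hf : Ex L (fun T => f T ^ 2) ≤ 1) {k : ℕ} {κ R : ℝ}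
    (hκ : 0 < κ) (hk : κ ≤ k * w)
    (hv : ∀ g : Finset α → ℝ, 2 * Ex L (fun T => f T * g T) - Ex L (fun T => g T ^ 2) -
      1 / 2 * ∑ x ∈ D, Ex L (fun T => (g T - g (σ (ed x) T)) ^ 2) ≤ R) :
    Ex L (fun T => f T * (Kop σ q E)^[2 * k] f T) ^ 2 ≤ (1 + 1 / κ) * R := by
  let S : ℕ → ℝ := fun i => Ex L (fun T => (Kop σ q E)^[i] f T ^ 2)
  let Dr : ℕ → ℝ := fun i =>
    ∑ x ∈ D, Ex L (fun T => ((Kop σ q E)^[i] f T - (Kop σ q E)^[i] f (σ (ed x) T)) ^ 2)
  have S0 : ∀ i, 0 ≤ S i := fun i => Ex_nonneg fun _ _ => sq_nonneg _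
  have D0 : ∀ i, 0 ≤ Dr i := fun i => sum_nonneg fun _ _ => Ex_nonneg fun _ _ => sq_nonneg _
  have dr : ∀ i, w / 2 * Dr i ≤ S i - S (i + 1) := fun i => by
    have := K_drop hq h1 h2 hD hinj hw0 hw hw' ((Kop σ q E)^[i] f)
    simpa only [S, Function.iterate_succ_apply'] using this
  have an : Antitone S := antitone_nat_of_succ_le fun i => by
    have := dr i
    have := mul_nonneg (show 0 ≤ w / 2 by linarith) (D0 i)
    linarith
  have ev : ∀ i, Ex L (fun T => f T * (Kop σ q E)^[2 * i] f T) = S i := fun i => by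
    have := K_shift (q := q) h1 h2 f i 0 i
    simpa only [S, sq, two_mul, zero_add, Function.iterate_zero, id] using this
  have k0 : 0 < k := by
    rcases Nat.eq_zero_or_pos k with rfl | h
    · simp at hk; linarith
    · exact h
  have kr : (0:ℝ) < k := by exact_mod_cast k0
  obtain ⟨i, hi, hi'⟩ := exists_le_of_sum_le (s := range k) (f := fun i => w / 2 * Dr (2 * i))
    (g := fun _ => 1 / (k:ℝ)) (nonempty_range_iff.2 k0.ne') (by
      rw [sum_const, card_range, nsmul_eq_mul, mul_one_div_cancel kr.ne']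
      calc _ ≤ ∑ i ∈ range k, (S (2 * i) - S (2 * (i + 1))) := sum_le_sum fun i _ => by
            have := dr (2 * i)
            have := an (show 2 * i + 1 ≤ 2 * (i + 1) by omega)
            linarith
        _ = S 0 - S (2 * k) := sum_range_sub' (fun i => S (2 * i)) k
        _ ≤ 1 := by
            have := S0 (2 * k)
            have : S 0 ≤ 1 := hf
            linarith)
  have e1 : 1 / 2 * Dr (2 * i) ≤ 1 / κ := by
    rw [le_div_iff₀ kr] at hi'
    rw [le_div_iff₀ hκ]
    nlinarith [mul_le_mul_of_nonneg_left hk (D0 (2 * i))]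
  have A0 : 0 < 1 + 1 / κ := by positivity
  obtain ⟨θ, hθ⟩ : ∃ θ, θ = S k / (1 + 1 / κ) := ⟨_, rfl⟩
  have θ0 : 0 ≤ θ := hθ ▸ div_nonneg (S0 k) A0.le
  have k4 := hv (fun T => θ * (Kop σ q E)^[2 * i] f T)
  simp only [← mul_sub, mul_pow, mul_left_comm (f _), Ex_mul_left, ← mul_sum] at k4
  rw [ev i] at k4
  change 2 * (θ * S i) - θ ^ 2 * S (2 * i) - 1 / 2 * (θ ^ 2 * Dr (2 * i)) ≤ R at k4
  have e2 : S k ≤ S i := an (mem_range.1 hi).le
  have e3 : S (2 * i) ≤ 1 := (an (Nat.zero_le _)).trans hf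
  have e4 : S k = θ * (1 + 1 / κ) := by rw [hθ, div_mul_cancel₀ _ A0.ne']
  have e5 : θ ^ 2 * (1 + 1 / κ) ≤ R := by
    have a1 := mul_le_mul_of_nonneg_left e2 θ0
    have a2 := mul_le_mul_of_nonneg_left e3 (sq_nonneg θ)
    have a3 := mul_le_mul_of_nonneg_left e1 (sq_nonneg θ)
    rw [e4] at a1
    nlinarith
  rw [ev k, e4]
  nlinarith [mul_le_mul_of_nonneg_left e5 A0.le]

end chain

/-- joint law of the first and last state of the chain driven by random edge sets -/
theorem pair_prob {Ω : Type*} [MeasurableSpace Ω] (μ : Measure Ω) [IsProbabilityMeasure μ]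
    (σ : ι → Finset α → Finset α) (q : ι → ℝ) (E : Finset ι) (F G : Finset α → Prop) (L : Finset α)
    (X : Ω → Finset α) (β : ℕ → Ω → Finset ι) (hX : ∀ w, X w ⊆ L) (hβ : ∀ k w, β k w ⊆ E)
    (mX : ∀ T, MeasurableSet {w | X w = T}) (mβ : ∀ k b, MeasurableSet {w | β k w = b})
    (law : ∀ T ⊆ L, ∀ (j : ℕ) (B : ℕ → Finset ι), (∀ k, B k ⊆ E) →
      μ.real {w | X w = T ∧ ∀ k < j, β k w = B k} =
        (1 / 2) ^ L.card * ∏ k ∈ range j, wt q E (B k)) (m : ℕ) :
    μ.real {w | G (X w) ∧ F (run σ (fun k => β k w) (X w) m)} =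
      Ex L (fun T => ind (G T) * (Kop σ q E)^[m] (fun U => ind (F U)) T) := by
  have key : ∀ T ⊆ L, ∀ (n j : ℕ) (B : ℕ → Finset ι), (∀ k, B k ⊆ E) →
      μ.real ({w | X w = T ∧ ∀ k < j, β k w = B k} ∩
        {w | F (run σ (fun k => β k w) (X w) (j + n))}) =
      μ.real {w | X w = T ∧ ∀ k < j, β k w = B k} *
        (Kop σ q E)^[n] (fun U => ind (F U)) (run σ B T j) := by
    intro T hT n
    induction n with
    | zero =>
      intro j B _
      have e0 : ∀ w ∈ {w | X w = T ∧ ∀ k < j, β k w = B k},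
          run σ (fun k => β k w) (X w) j = run σ B T j := fun w hw => by
        rw [hw.1]; exact run_congr σ T j hw.2
      by_cases hF : F (run σ B T j)
      · rw [Set.inter_eq_left.2]
        · simp [ind_pos hF]
        · exact fun w hw => by rwa [Set.mem_ofPred_eq, add_zero, e0 w hw]
      · rw [Set.disjoint_iff_inter_eq_empty.1]
        · simp [ind_neg hF]
        · exact Set.disjoint_left.2 fun w hw h => hF (by
            rwa [Set.mem_ofPred_eq, add_zero, e0 w hw] at h)
    | succ n ih =>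
      intro j B hB
      rw [real_part μ E.powerset (β j) _ (fun w => mem_powerset.2 (hβ j w)) (mβ j),
        Function.iterate_succ_apply']
      simp only [Kop, mul_sum]
      refine sum_congr rfl fun b hb => ?_
      have e1 : ∀ k, Function.update B j b k ⊆ E := fun k => by
        rw [Function.update_apply]
        split_ifs
        · exact mem_powerset.1 hb
        · exact hB k
      have e2 : ∀ k < j, Function.update B j b k = B k := fun k hk =>
        Function.update_of_ne hk.ne _ _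
      have e3 := ih (j + 1) _ e1
      rw [law T hT _ _ e1, prod_range_succ, run, Function.update_self, run_congr σ T j e2,
        prod_congr rfl fun k hk => by rw [e2 k (mem_range.1 hk)]] at e3
      rw [law T hT _ _ hB, ← mul_assoc, mul_assoc _ _ (wt q E b), ← e3]
      congr 1
      ext w
      simp only [Set.mem_inter_iff, Set.mem_ofPred_eq]
      rw [add_assoc, add_comm 1]
      constructor
      · rintro ⟨a1, a2, a4⟩
        refine ⟨⟨a2.1, fun k hk => ?_⟩, a4⟩
        rcases (Nat.lt_succ_iff.1 hk).eq_or_lt with rfl | hk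
        · rw [a1, Function.update_self]
        · rw [e2 k hk, a2.2 k hk]
      · rintro ⟨⟨a1, a2⟩, a4⟩
        exact ⟨by rw [a2 j (by omega), Function.update_self],
          ⟨a1, fun k hk => by rw [a2 k (by omega), e2 k hk]⟩, a4⟩
  rw [real_part μ L.powerset X _ (fun w => mem_powerset.2 (hX w)) mX, Ex, sum_div]
  refine sum_congr rfl fun T hT => ?_
  have := key T (mem_powerset.1 hT) m 0 (fun _ => ∅) (fun _ => empty_subset _)
  rw [law T (mem_powerset.1 hT) _ (fun _ => ∅) (fun _ => empty_subset _)] at this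
  simp only [Nat.not_lt_zero, false_imp_iff, implies_true, and_true, zero_add, range_zero,
    prod_empty, mul_one, run] at this
  by_cases hG : G T
  · rw [ind_pos hG, one_mul, div_eq_inv_mul, ← inv_pow, ← one_div, ← this]
    congr 1
    ext w
    simp only [Set.mem_inter_iff, Set.mem_ofPred_eq]
    exact and_congr_right fun h => and_iff_right (h ▸ hG)
  · rw [ind_neg hG, zero_mul, zero_div, Set.disjoint_iff_inter_eq_empty.1, measureReal_empty]
    exact Set.disjoint_left.2 fun w hw h => hG (hw ▸ h.1)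

end Pool.Agent.Lib.MP_e26b79_ns
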