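import Pool.Agent.Lib.MP_e26b79_pr.Defs

namespace Pool.Agent.Lib.MP_e26b79_ns
open Pool.Agent.Lib.MP_e26b79_pr

/-- the sites `(i, j)` with `0 ≤ i ≤ a` and `0 ≤ j ≤ b` -/
def box (a b : ℕ) : Set (ℤ × ℤ) := Set.Icc (0 : ℤ) a ×ˢ Set.Icc (0 : ℤ) b

/-- left-right crossing: a path of the triangular lattice that uses only sites of `S` in the box
joins the side `i = 0` to the side `i = a` -/
def Cross (a b : ℕ) (S : Set (ℤ × ℤ)) : Prop :=
  ∃ l r : ↥(S ∩ box a b), l.1.1 = 0 ∧ r.1.1 = a ∧ (tri.induce (S ∩ box a b)).Reachable l r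

end Pool.Agent.Lib.MP_e26b79_ns
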