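import Pool.Agent.Lib.MP_e26b79_ns.Tmpl

namespace Pool.Agent.Lib.MP_e26b79_ns
open Finset Pool.Agent.Lib.MP_e26b79_pr

/-- grid of centres in `[0, n]`, with gaps six or seven -/
def G (n c : ℤ) : Prop := 0 ≤ c ∧ c ≤ n ∧
  ((c ≤ 7 * (n % 6) ∧ 7 ∣ c) ∨ (7 * (n % 6) ≤ c ∧ 6 ∣ n - c))

theorem G_sep {n c c' : ℤ} (h : G n c) (h' : G n c') : c = c' ∨ c + 6 ≤ c' ∨ c' + 6 ≤ c := by
  unfold G at *; omega
theorem G_zero {n : ℤ} (hn : 35 ≤ n) : G n 0 := by unfold G; omega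
theorem G_last {n : ℤ} (hn : 35 ≤ n) : G n n := by unfold G; omega
theorem G_cover {n z : ℤ} (hn : 35 ≤ n) (h0 : 0 ≤ z) (h1 : z ≤ n) :
    ∃ c c', G n c ∧ G n c' ∧ c ≤ z ∧ z ≤ c' ∧ c' ≤ c + 7 := by
  by_cases h : z < 7 * (n % 6)
  · exact ⟨7 * (z / 7), 7 * (z / 7) + 7, by unfold G; omega, by unfold G; omega, by omega,
      by omega, by omega⟩
  · exact ⟨7 * (n % 6) + 6 * ((z - 7 * (n % 6)) / 6), n - 6 * ((n - z) / 6), by unfold G; omega,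
      by unfold G; omega, by omega, by omega, by omega⟩

open Classical in
/-- centres of the dimers -/
noncomputable def dm (a b : ℤ) : Finset V := (rect 0 a 0 b).filter fun x =>
  G a x.1 ∧ G b x.2 ∧ ¬ ((x.1 = 0 ∨ x.1 = a) ∧ (x.2 = 0 ∨ x.2 = b))

theorem mem_dm {a b : ℤ} {x : V} : x ∈ dm a b ↔
    G a x.1 ∧ G b x.2 ∧ ¬ ((x.1 = 0 ∨ x.1 = a) ∧ (x.2 = 0 ∨ x.2 = b)) := by
  simp only [dm, mem_filter, mem_rect]
  exact ⟨fun h => h.2, fun h => ⟨⟨h.1.1, h.1.2.1, h.2.1.1, h.2.1.2.1⟩, h⟩⟩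

/-- the second site of a dimer -/
def pt (b : ℤ) (x : V) : V :=
  if x.1 = 0 then (x.1 - 1, x.2) else if x.2 = 0 then (x.1, x.2 - 1)
  else if x.2 = b then (x.1, x.2 + 1) else (x.1 + 1, x.2)

theorem pt_cases (b : ℤ) (x : V) : (x.1 = 0 ∧ pt b x = (x.1 - 1, x.2)) ∨
    (x.1 ≠ 0 ∧ x.2 = 0 ∧ pt b x = (x.1, x.2 - 1)) ∨ (x.1 ≠ 0 ∧ x.2 = b ∧ pt b x = (x.1, x.2 + 1)) ∨
    (x.1 ≠ 0 ∧ x.2 ≠ 0 ∧ x.2 ≠ b ∧ pt b x = (x.1 + 1, x.2)) := by
  unfold pt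
  split_ifs <;> simp [*]

theorem adj_pt (b : ℤ) (x : V) : adj x (pt b x) := by
  rcases pt_cases b x with h | h | h | h <;> simp [h, adj]

theorem hn_le {p x : V} : hn (p - x) ≤ 4 ↔ p.1 - x.1 ≤ 4 ∧ x.1 - p.1 ≤ 4 ∧ p.2 - x.2 ≤ 4 ∧
    x.2 - p.2 ≤ 4 ∧ p.1 - x.1 + (p.2 - x.2) ≤ 4 ∧ -4 ≤ p.1 - x.1 + (p.2 - x.2) := by
  simp only [hn, nu, Prod.fst_sub, Prod.snd_sub]
  omega

theorem entry {η Q : Set V} {x u z : V} (c : Conn (η ∪ (hex x ∩ Q)) u z) (hu : u ∉ hex x)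
    (hz : z ∈ hex x) : ∃ w, Conn η u w ∧ hn (w - x) = 5 := by
  obtain ⟨w, z1, f1, f2, f3, -⟩ := c.first_hit (C := hex x) hu hz
  exact ⟨w, f1.mono fun t ht => ht.1.resolve_right fun h => ht.2 h.1, hex_ring f3 f1.right.2 f2⟩

theorem tmpl {a b : ℤ} (ha : 35 ≤ a) (hb : 35 ≤ b) {x : V} (hx : x ∈ dm a b) :
    ∃ 𝒯 ⊆ (hex x).powerset, ∀ T : Finset V,
      ind (HC 0 a 0 b (mix (hex x) (hex x) T : Finset V)) -
        ind (HC 0 a 0 b (mix (hex x) ∅ T : Finset V)) ≤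
      ∑ A ∈ 𝒯, (ind (HC 0 a 0 b (mix (hex x) A T : Finset V)) -
        ind (HC 0 a 0 b (sw x (pt b x) (mix (hex x) A T) : Finset V))) := by
  obtain ⟨g1, g2, g3⟩ := mem_dm.1 hx
  have s1 := G_sep g1 (G_zero ha)
  have s2 := G_sep g1 (G_last ha)
  have s3 := G_sep g2 (G_zero hb)
  have s4 := G_sep g2 (G_last hb)
  have t1 := g1.1
  have t2 := g1.2.1
  have t3 := g2.1
  have t4 := g2.2.1
  clear g1 g2 hx
  refine tmpl_gen ⟨t1, t2, t3, t4⟩ (adj_pt b x) (fun h => ?_) ?_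
  · rcases pt_cases b x with k | k | k | k <;> simp only [k, mem_rs] at * <;> omega
  rintro η hη noarm ⟨u, v, e1, e2, c⟩
  obtain ⟨z, hz, c1, c2⟩ : ∃ z ∈ hex x, Conn (η ∪ (hex x ∩ rs 0 a 0 b)) u z ∧
      Conn (η ∪ (hex x ∩ rs 0 a 0 b)) v z := by
    by_contra h
    refine noarm u v e1 e2 (c.cluster.mono fun w hw => (Conn.right hw).resolve_right fun h5 => ?_)
    exact h ⟨w, h5.1, hw, c.symm.trans hw⟩
  have hη' : ∀ w ∈ η, w ∉ hex x := fun w hw => (hη w hw).2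
  have inH : ∀ w : V, w.1 + 5 ≤ x.1 ∨ x.1 + 5 ≤ w.1 → w ∉ hex x := fun w hw h => by
    simp only [mem_hex, hn, nu, Prod.fst_sub, Prod.snd_sub] at h
    omega
  by_cases h0 : x.1 = 0
  · obtain ⟨w, d1, d2⟩ := entry c2 (inH v (by omega)) hz
    have d3 := (hη w d1.right).1
    have d4 : w.1 ≠ 0 := fun h => noarm w v h e2 d1.symm
    obtain ⟨P, hP⟩ := one_route rL_g rL_c d2 (by simp only [mem_rs, Prod.fst_sub] at *; omega)
    refine ⟨∅, P, side_empty h0, side_gd hP e2 d1 hη' fun p k1 k2 => ?_, by simp⟩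
    rw [hn_le] at k1
    rcases pt_cases b x with ⟨k3, k⟩ | ⟨k3, k4, k⟩ | ⟨k3, k4, k⟩ | ⟨k3, k4, k5, k⟩ <;> rw [k] <;>
      simp only [mem_rs, Prod.fst_sub, Ne, Prod.ext_iff, adj] at k2 ⊢ <;> omega
  by_cases h1 : x.1 = a
  · obtain ⟨w, d1, d2⟩ := entry c1 (inH u (by omega)) hz
    have d3 := (hη w d1.right).1
    have d4 : w.1 ≠ a := fun h => noarm u w e1 h d1
    obtain ⟨P, hP⟩ := one_route rR_g rR_c d2 (by simp only [mem_rs, Prod.fst_sub] at *; omega)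
    refine ⟨P, ∅, side_gd hP e1 d1 hη' fun p k1 k2 => ?_, side_empty h1, by simp⟩
    rw [hn_le] at k1
    rcases pt_cases b x with ⟨k3, k⟩ | ⟨k3, k4, k⟩ | ⟨k3, k4, k⟩ | ⟨k3, k4, k5, k⟩ <;> rw [k] <;>
      simp only [mem_rs, Prod.fst_sub, Ne, Prod.ext_iff, adj] at k2 ⊢ <;> omega
  obtain ⟨w, d1, d2⟩ := entry c1 (inH u (by omega)) hz
  obtain ⟨w', d1', d2'⟩ := entry c2 (inH v (by omega)) hz
  have d3 := (hη w d1.right).1
  have d3' := (hη w' d1'.right).1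
  have n1 : w ≠ w' := fun h => noarm u v e1 e2 (d1.trans (h ▸ d1'.symm))
  have n2 : ¬ adj w w' := fun h => noarm u v e1 e2 (d1.trans (.head d1.right h d1'.symm))
  clear noarm hη c c1 c2 inH
  rcases pt_cases b x with ⟨k3, k⟩ | ⟨k3, k4, k⟩ | ⟨k3, k4, k⟩ | ⟨k3, k4, k5, k⟩
  · exact absurd k3 h0
  · obtain ⟨P1, P2, p1, p2, p3⟩ := two_route rB_g rB_p rB_c d2 d2'
      (by simp only [mem_rs, Prod.snd_sub] at *; omega)
      (by simp only [mem_rs, Prod.snd_sub] at *; omega) n1 n2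
    refine ⟨P1, P2, side_gd p1 e1 d1 hη' fun p k1 k2 => ?_, side_gd p2 e2 d1' hη' fun p k1 k2 => ?_,
      p3⟩ <;>
    · rw [hn_le] at k1
      rw [k]
      simp only [mem_rs, Prod.snd_sub, Ne, Prod.ext_iff, adj] at k2 ⊢
      omega
  · obtain ⟨P1, P2, p1, p2, p3⟩ := two_route rT_g rT_p rT_c d2 d2'
      (by simp only [mem_rs, Prod.snd_sub] at *; omega)
      (by simp only [mem_rs, Prod.snd_sub] at *; omega) n1 n2
    refine ⟨P1, P2, side_gd p1 e1 d1 hη' fun p k1 k2 => ?_, side_gd p2 e2 d1' hη' fun p k1 k2 => ?_,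
      p3⟩ <;>
    · rw [hn_le] at k1
      rw [k]
      simp only [mem_rs, Prod.snd_sub, Ne, Prod.ext_iff, adj] at k2 ⊢
      omega
  · obtain ⟨P1, P2, p1, p2, p3⟩ := two_route rI_g routes_pair rI_c d2 d2' trivial trivial n1 n2
    refine ⟨P1, P2, side_gd p1 e1 d1 hη' fun p k1 k2 => ?_, side_gd p2 e2 d1' hη' fun p k1 k2 => ?_,
      p3⟩ <;>
    · rw [hn_le] at k1
      rw [k]
      simp only [mem_rs, Prod.fst_sub, Prod.snd_sub, Ne, Prod.ext_iff, adj] at k2 ⊢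
      omega

/-- the four corners of the box -/
noncomputable def cor (a b : ℤ) : Finset V := hex (0, 0) ∪ hex (a, 0) ∪ hex (0, b) ∪ hex (a, b)

theorem card_cor (a b : ℤ) : (cor a b).card ≤ 324 := by
  have h1 := card_hex (0, 0)
  have h2 := card_hex (a, 0)
  have h3 := card_hex (0, b)
  have h4 := card_hex (a, b)
  have k1 := card_union_le (hex (0, 0)) (hex (a, 0))
  have k2 := card_union_le (hex (0, 0) ∪ hex (a, 0)) (hex (0, b))
  have k3 := card_union_le (hex (0, 0) ∪ hex (a, 0) ∪ hex (0, b)) (hex (a, b))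
  unfold cor
  omega

theorem cover {a b : ℤ} (ha : 35 ≤ a) (hb : 35 ≤ b) {z : V} (hz : z ∈ rect 0 a 0 b \ cor a b) :
    ∃ x ∈ dm a b, z ∈ hex x := by
  obtain ⟨h1, h2⟩ := mem_sdiff.1 hz
  rw [mem_rect] at h1
  obtain ⟨c, c', a1, a2, a3⟩ := G_cover ha h1.1 h1.2.1
  obtain ⟨d, d', b1, b2, b3⟩ := G_cover hb h1.2.2.1 h1.2.2.2
  have key : ∀ c d, G a c → G b d → z ∈ hex (c, d) → ∃ x ∈ dm a b, z ∈ hex x := by
    intro c d k1 k2 k3
    refine ⟨(c, d), mem_dm.2 ⟨k1, k2, ?_⟩, k3⟩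
    rintro ⟨rfl | rfl, rfl | rfl⟩ <;> exact h2 (by simp only [cor, mem_union]; tauto)
  have : z ∈ hex (c, d) ∨ z ∈ hex (c', d) ∨ z ∈ hex (c, d') ∨ z ∈ hex (c', d') := by
    simp only [mem_hex, hn, nu, Prod.fst_sub, Prod.snd_sub, max_le_iff]
    omega
  rcases this with h | h | h | h
  exacts [key _ _ a1 b1 h, key _ _ a2 b1 h, key _ _ a1 b2 h, key _ _ a2 b2 h]

/-- variational bound for the centred crossing event under exchanges across dimers -/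
theorem var_cross : ∃ c : ℝ, 0 < c ∧ ∀ (a b : ℤ) (L : Finset V) (p : ℝ), 35 ≤ a → 35 ≤ b →
    (∀ v ∈ rs (-4) (a + 4) (-4) (b + 4), v ∈ L) → ∀ g : Finset V → ℝ,
    2 * Ex L (fun T => (ind (HC 0 a 0 b T) - p) * g T) - Ex L (fun T => g T ^ 2) -
      1 / 2 * ∑ x ∈ dm a b, Ex L (fun T => (g T - g (sw x (pt b x) T)) ^ 2) ≤
      Res L (rect 0 a 0 b \ cor a b) (fun T => ind (HC 0 a 0 b T) - p) / c := by
  obtain ⟨c, hc, h⟩ := compare_dimers (α := V) (ι := V) 81 one_pos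
  refine ⟨c, hc, fun a b L p ha hb hL g => h L _ (dm a b) id (pt b) hex _ (fun v hv => ?_)
    (fun T U hTU _ => sub_le_sub_right (ind_mono ((loc_HC _ _ _ _).up hTU)) _)
    (fun z hz => cover ha hb hz) (fun x hx => ?_) g⟩
  · have := mem_rect.1 (mem_sdiff.1 hv).1
    exact hL v (by simp only [mem_rs]; omega)
  · obtain ⟨𝒯, b1, b2⟩ := tmpl ha hb hx
    obtain ⟨a1, a2, -⟩ := mem_dm.1 hx
    have e := adj_pt b x
    refine ⟨fun v hv => hL v ?_, by simp [mem_hex, hn, nu], ?_, card_hex x, fun j hj hjx => ?_,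
      𝒯, b1, fun T _ => by simpa only [sub_sub_sub_cancel_right, id] using b2 T⟩
    · have := a1.1
      have := a1.2.1
      have := a2.1
      have := a2.2.1
      simp only [mem_hex, hn, nu, Prod.fst_sub, Prod.snd_sub, mem_rs] at *
      omega
    · simp only [mem_hex, hn, nu, Prod.fst_sub, Prod.snd_sub, adj] at *
      omega
    · obtain ⟨a5, a6, -⟩ := mem_dm.1 hj
      have s1 := G_sep a1 a5
      have s2 := G_sep a2 a6
      have : j.1 ≠ x.1 ∨ j.2 ≠ x.2 := by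
        by_contra h5
        exact hjx (Prod.ext (by omega) (by omega))
      have e' := adj_pt b j
      clear a1 a2 a5 a6 b2
      simp only [id, mem_hex, hn, nu, Prod.fst_sub, Prod.snd_sub, max_le_iff, adj] at *
      omega

end Pool.Agent.Lib.MP_e26b79_ns
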