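import Pool.Agent.Lib.MP_e26b79_ns.Dimer

namespace Pool.Agent.Lib.MP_e26b79_ns
open Finset Pool.Agent.Lib.MP_e26b79_pr

theorem pp_up : ∃ g : ℝ, 1 / 2 ≤ g ∧ g < 1 ∧ ∀ j, pp j (j + 1) ≤ g := by
  obtain ⟨c, hc, h⟩ := P_ring
  refine ⟨max (1 - c) (1 / 2), le_max_right _ _, max_lt (by linarith) (by norm_num),
    fun j => le_max_of_le_left ?_⟩
  have e := four_pow_pos j
  have e2 : (4:ℤ) ^ (j + 1) = 4 * 4 ^ j := by ring
  rw [pp, e2]
  generalize (4:ℤ) ^ j = b at e
  obtain ⟨D, d1, d2⟩ := lf_Ring (-(4 * b)) (-b) b (4 * b)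
  obtain ⟨L, l1, l2⟩ := exists_cover d1 (ann_finite b (4 * b))
  have h1 := h (-(4 * b)) (-b) b (4 * b) (by omega) (by omega) (by omega) (by omega) (by omega)
  rw [← P_eq_compl (d2.mono l1)] at h1
  rw [← P_eq ((loc_Arm _ _).mono l2)]
  have : Ex L (fun T => ind (Arm b (4 * b) T) +
      ind (Ring (-(4 * b)) (-b) b (4 * b) (T : Set V)ᶜ)) ≤ 1 := Ex_le_const fun T _ => by
    by_cases r : Ring (-(4 * b)) (-b) b (4 * b) (T : Set V)ᶜ
    · rw [ind_pos r, ind_neg, zero_add]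
      rintro ⟨u, v, e1, e2, c⟩
      obtain ⟨p, -, hp⟩ := ring_meet r (by omega) (by omega) (by omega)
      obtain ⟨z, z1, -, z3⟩ := hp _ u v c (nu_le.1 e1.le) (by have := le_nu.1 e2.ge; omega)
      exact z3.right z1.1
    · rw [ind_neg r, add_zero]
      exact ind_le_one _
  rw [Ex_add] at this
  linarith

theorem pp_geom : ∃ g : ℝ, 1 / 2 ≤ g ∧ g < 1 ∧ ∀ r, pp 0 (2 * r + 1) ≤ g ^ r := by
  obtain ⟨g, g0, g1, h⟩ := pp_up
  refine ⟨g, g0, g1, fun r => ?_⟩
  induction r with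
  | zero => simpa using pp_le_one 0 1
  | succ r ih =>
    refine (pp_indep (j := 2 * r + 1) (Nat.zero_le _) (by omega)).trans ?_
    rw [pow_succ]
    exact mul_le_mul ih (h (2 * r + 1 + 1)) (pp_nonneg _ _) (by positivity)

theorem Ex_arm_sh {z : V} {a b : ℤ} {L : Finset V} (hL : ∀ v, v - z ∈ ann a b → v ∈ L) :
    Ex L (fun T => ind (Arm a b (sh z T))) = P (Arm a b) := by
  have d : Dep (fun T : Finset V => ind (Arm a b (sh z T))) {v | v - z ∈ ann a b} :=
    fun T U h => ind_congr ((loc_Arm a b).iff fun v hv => h (v + z) (by simpa using hv))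
  rw [pr_eq (d.mono hL)]
  refine pr_map (ann_finite a b) (loc_Arm a b).dep (Equiv.addRight z) fun T => ?_
  have e : sh z (T.map (Equiv.addRight z).toEmbedding : Finset V) = T := by
    ext v; simp [sh]
  rw [e]

open Classical in
/-- sites seen when exploring the black clusters of the box that meet the column `s` -/
noncomputable def Jc (a b s : ℤ) (T : Finset V) : Finset V := (rect 0 a 0 b).filter fun v =>
  v.1 = s ∨ ∃ u l : V, adj u v ∧ l.1 = s ∧ Conn ((T : Set V) ∩ rs 0 a 0 b) l u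

theorem mem_Jc {a b s : ℤ} {T : Finset V} {v : V} : v ∈ Jc a b s T ↔ v ∈ rs 0 a 0 b ∧
    (v.1 = s ∨ ∃ u l : V, adj u v ∧ l.1 = s ∧ Conn ((T : Set V) ∩ rs 0 a 0 b) l u) := by
  simp only [Jc, mem_filter, mem_rect, mem_rs]

section
variable {a b s : ℤ} {T T' : Finset V} (h : ∀ v ∈ Jc a b s T, v ∈ T ↔ v ∈ T')
include h

theorem Jc_conn {l u : V} (hl : l.1 = s) :
    Conn ((T : Set V) ∩ rs 0 a 0 b) l u ↔ Conn ((T' : Set V) ∩ rs 0 a 0 b) l u := by
  constructor <;> intro c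
  · induction c with
    | refl h0 => exact .refl ⟨(h l (mem_Jc.2 ⟨h0.2, Or.inl hl⟩)).1 h0.1, h0.2⟩
    | step c e hb ih =>
      exact .step ih e ⟨(h _ (mem_Jc.2 ⟨hb.2, Or.inr ⟨_, l, e, hl, c⟩⟩)).1 hb.1, hb.2⟩
  · induction c with
    | refl h0 => exact .refl ⟨(h l (mem_Jc.2 ⟨h0.2, Or.inl hl⟩)).2 h0.1, h0.2⟩
    | step c e hb ih =>
      exact .step ih e ⟨(h _ (mem_Jc.2 ⟨hb.2, Or.inr ⟨_, l, e, hl, ih⟩⟩)).2 hb.1, hb.2⟩

theorem Jc_eq : Jc a b s T' = Jc a b s T := by
  ext v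
  simp only [mem_Jc]
  refine and_congr_right fun _ => or_congr_right (exists₂_congr fun u l =>
    and_congr_right fun _ => and_congr_right fun hl => (Jc_conn h hl).symm)

theorem Jc_HC (h0 : 0 ≤ s) (h1 : s ≤ a) : HC 0 a 0 b T' ↔ HC 0 a 0 b T := by
  have key : ∀ U U' : Finset V, (∀ l u : V, l.1 = s → Conn ((U : Set V) ∩ rs 0 a 0 b) l u →
      Conn ((U' : Set V) ∩ rs 0 a 0 b) l u) → HC 0 a 0 b U → HC 0 a 0 b U' := by
    intro U U' k c
    obtain ⟨l, r, e1, e2, c⟩ := HC_iff.1 c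
    obtain ⟨p, -, f1, -, -, f2, -⟩ := c.cut1 lip1 (le_refl s) (by omega) (by omega)
    exact ⟨p, l, r, e1, e2, k p l f1 f2.symm, k p r f1 (f2.symm.trans c)⟩
  exact ⟨key _ _ fun l u hl => (Jc_conn h hl).2, key _ _ fun l u hl => (Jc_conn h hl).1⟩

end

theorem reveal_col {a D : ℕ} {b : ℤ} (hD : 1 ≤ D) (hDa : D ≤ a) {L : Finset V}
    (hL : ∀ v ∈ rs (-a) (2 * a) (-a) (b + a), v ∈ L) (x : V) :
    ∑ s ∈ Icc (0:ℤ) a, Ex L (fun T => ind (x ∈ Jc a b s T)) ≤
      (2 * D + 1) + (a + 1) * P (Arm 1 D) := by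
  have P0 := P_nonneg (Arm 1 D)
  by_cases hx : x ∈ rs 0 a 0 b
  swap
  · refine (sum_nonpos fun s _ => Ex_le_const fun T _ => ?_).trans (by positivity)
    rw [ind_neg fun h => hx (mem_Jc.1 h).1]
  calc _ ≤ ∑ s ∈ Icc (0:ℤ) a, ((if s ∈ Icc (x.1 - D) (x.1 + D) then 1 else 0) + P (Arm 1 D)) := by
        refine sum_le_sum fun s _ => ?_
        split_ifs with hs
        · exact (Ex_le_const fun T _ => ind_le_one _).trans (by linarith)
        · rw [zero_add, ← Ex_arm_sh (z := x) (L := L) fun v hv => hL v (by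
            simp only [mem_ann, nu, mem_rs, Prod.fst_sub, Prod.snd_sub] at *; omega)]
          refine Ex_mono fun T _ => ind_mono fun h => ?_
          rw [mem_Icc] at hs
          rcases (mem_Jc.1 h).2 with h | ⟨u, l, e1, e2, c⟩
          · omega
          · refine arm_sh (c.symm.mono Set.inter_subset_left) ?_ ?_ (by omega) <;>
            · simp only [nu, adj, Prod.fst_sub, Prod.snd_sub] at *
              omega
    _ ≤ _ := by
        rw [sum_add_distrib, sum_const, nsmul_eq_mul, sum_ite_mem, sum_const, nsmul_eq_mul, mul_one]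
        have e1 : (Icc (0:ℤ) a).card = a + 1 := by simp
        have e2 : (Icc (0:ℤ) a ∩ Icc (x.1 - D) (x.1 + D)).card ≤ 2 * D + 1 := by
          refine (card_le_card inter_subset_right).trans ?_
          rw [Int.card_Icc]
          omega
        have e3 : ((Icc (0:ℤ) a ∩ Icc (x.1 - D) (x.1 + D)).card : ℝ) ≤ 2 * D + 1 := by
          exact_mod_cast e2
        rw [e1]
        push_cast
        linarith

theorem Res_le_levels {α : Type*} [DecidableEq α] {L Q C : Finset α} {f : Finset α → ℝ}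
    (hf : Dep f (Q : Set α)) (h0 : Ex L f = 0) (h1 : Ex L (fun T => f T ^ 2) ≤ 1) {δ : ℝ}
    (hδ : 0 ≤ δ) (h : ∀ k : ℕ, k ≠ 0 → ∑ S ∈ powersetCard k L, hat L f S ^ 2 ≤ k * δ) {K M : ℕ}
    (hK : 0 < K) (hM : C.card + K ≤ M) : Res L (Q \ C) f ≤ M ^ 2 * δ + 1 / K := by
  have K0 : (0:ℝ) < K := by exact_mod_cast hK
  calc _ ≤ ∑ S ∈ L.powerset, ((if S.card ≤ M then hat L f S ^ 2 else 0) + hat L f S ^ 2 / K) := by
        refine sum_le_sum fun S hS => ?_
        have s0 := sq_nonneg (hat L f S)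
        split_ifs with hs
        · refine le_add_of_le_of_nonneg (div_le_self s0 ?_) (by positivity)
          linarith [Nat.cast_nonneg (α := ℝ) (S ∩ (Q \ C)).card]
        · rw [zero_add]
          by_cases hQ : S ⊆ Q
          · have e1 : S.card ≤ (S ∩ (Q \ C)).card + C.card := by
              refine (card_le_card fun v hv => ?_).trans (card_union_le _ _)
              have := hQ hv
              simp only [mem_union, mem_inter, mem_sdiff]
              tauto
            have e2 : K ≤ 1 + (S ∩ (Q \ C)).card := by omega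
            have e3 : (K:ℝ) ≤ 1 + (S ∩ (Q \ C)).card := by exact_mod_cast e2
            gcongr
          · rw [hat_eq_zero hf (mem_powerset.1 hS) hQ]; simp
    _ ≤ _ := by
        rw [sum_add_distrib, ← sum_div, ← parseval, sum_powerset]
        refine add_le_add ?_ (by gcongr)
        calc _ ≤ ∑ j ∈ range (L.card + 1), if j ∈ Icc 1 M then M * δ else 0 := by
              refine sum_le_sum fun j _ => ?_
              rw [sum_congr rfl fun S hS => by rw [(mem_powersetCard.1 hS).2]]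
              by_cases a1 : j ≤ M
              · simp only [if_pos a1]
                rcases Nat.eq_zero_or_pos j with rfl | a2
                · simp [hat_empty, h0]
                · rw [if_pos (mem_Icc.2 ⟨a2, a1⟩)]
                  refine (h j a2.ne').trans ?_
                  gcongr
              · simp only [if_neg a1, sum_const_zero]
                positivity
          _ ≤ _ := by
              rw [sum_ite_mem, sum_const, nsmul_eq_mul, sq, mul_assoc]
              have e2 : (range (L.card + 1) ∩ Icc 1 M).card ≤ M :=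
                (card_le_card inter_subset_right).trans (by simp)
              have e3 : ((range (L.card + 1) ∩ Icc 1 M).card : ℝ) ≤ M := by exact_mod_cast e2
              gcongr

theorem sq_centre {p : Prop} {x : ℝ} (h0 : 0 ≤ x) (h1 : x ≤ 1) : (ind p - x) ^ 2 ≤ 1 := by
  have := ind_nonneg p
  have := ind_le_one p
  nlinarith

/-- resolvent bound for the centred crossing event under resampling -/
theorem res_cross : ∃ C h : ℝ, 0 < C ∧ 0 < h ∧ h < 1 ∧ ∀ (r a : ℕ) (b : ℤ) (L : Finset V),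
    4 ^ (3 * r + 2) ≤ a → (∀ v ∈ rs (-a) (2 * a) (-a) (b + a), v ∈ L) →
    Res L (rect 0 a 0 b \ cor a b) (fun T => ind (HC 0 a 0 b T) - P (HC 0 a 0 b)) ≤ C * h ^ r := by
  obtain ⟨g, g0, g1, hg⟩ := pp_geom
  obtain ⟨h, hh⟩ : ∃ h : ℝ, h = (2 + g) / 3 := ⟨_, rfl⟩
  have h0 : 0 < h := by linarith
  have h1 : h < 1 := by linarith
  have h3 : g ≤ h ^ 3 := by
    have : g = 3 * h - 2 := by linarith
    nlinarith [mul_nonneg (sq_nonneg (h - 1)) (show 0 ≤ h + 2 by linarith)]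
  refine ⟨2 * 326 ^ 2 + 1, h, by positivity, h0, h1, fun r a b L ha hL => ?_⟩
  have hQ : rs 0 a 0 b ⊆ L := fun v hv => hL v (by simp only [mem_rs] at *; omega)
  have p0 := P_nonneg (HC 0 a 0 b)
  have p1 := P_le_one (HC 0 a 0 b)
  have e1 : 4 ^ (3 * r + 2) = 4 * 4 ^ r * 4 ^ (2 * r + 1) := by ring
  have e2 : 1 ≤ 4 ^ r := Nat.one_le_pow _ _ (by norm_num)
  have e3 : 1 ≤ 4 ^ (2 * r + 1) := Nat.one_le_pow _ _ (by norm_num)
  have hr : 0 < h ^ r := by positivity
  have hr1 : h ^ r ≤ 1 := pow_le_one₀ h0.le h1.le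
  have i1 : 1 ≤ 1 / h ^ r := by rw [le_div_iff₀ hr]; linarith
  have lev : ∀ k : ℕ, k ≠ 0 → ∑ S ∈ powersetCard k L,
      hat L (fun T => ind (HC 0 a 0 b T) - P (HC 0 a 0 b)) S ^ 2 ≤ k * (2 * g ^ r) := by
    intro k hk
    have c1 : (Icc (0:ℤ) a).card = a + 1 := by simp
    have := schramm_steif (L := L) (Icc (0:ℤ) a) ⟨0, by simp⟩ (fun s T => Jc a b s T)
      (fun _ T => ind (HC 0 a 0 b T) - P (HC 0 a 0 b))
      (fun s _ T U _ _ => Jc_eq fun v hv => (mem_mix_of_mem hv).symm)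
      (fun s hs T U _ _ => by
        rw [ind_congr (Jc_HC (fun v hv => (mem_mix_of_mem hv).symm) (mem_Icc.1 hs).1
          (mem_Icc.1 hs).2)])
      (δ := 2 * g ^ r) (β := 1) (by positivity) (fun x _ => ?_)
      (fun _ _ => Ex_le_const fun T _ => sq_centre p0 p1) hk
    · simp only [sum_const, nsmul_eq_mul, c1, mul_one] at this
      simpa only [mul_div_cancel_left₀ _ (show ((a + 1 : ℕ) : ℝ) ≠ 0 by positivity)] using this
    · refine (reveal_col (D := 4 ^ (2 * r + 1)) e3 (by nlinarith) hL x).trans ?_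
      have a1 := hg r
      rw [pp, pow_zero] at a1
      have a2 : (2 * 4 ^ (2 * r + 1) + 1) * 4 ^ r ≤ a + 1 := by nlinarith
      have a3 : ((2:ℝ) * 4 ^ (2 * r + 1) + 1) * 4 ^ r ≤ a + 1 := by exact_mod_cast a2
      have a4 : (1:ℝ) ≤ 4 ^ r * g ^ r := by
        rw [← mul_pow]; exact one_le_pow₀ (by linarith)
      have a5 : (0:ℝ) ≤ g ^ r := by positivity
      have a6 : (0:ℝ) ≤ 2 * 4 ^ (2 * r + 1) + 1 := by positivity
      rw [c1]
      push_cast
      have a7 := mul_le_mul_of_nonneg_left a1 (show (0:ℝ) ≤ a + 1 by positivity)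
      nlinarith [mul_le_mul_of_nonneg_right a3 a5, mul_le_mul_of_nonneg_left a4 a6]
  have k1 : (⌈1 / h ^ r⌉₊ : ℝ) ≤ 1 / h ^ r + 1 := (Nat.ceil_lt_add_one (by positivity)).le
  have k2 : 1 / h ^ r ≤ ⌈1 / h ^ r⌉₊ := Nat.le_ceil _
  refine (Res_le_levels (K := ⌈1 / h ^ r⌉₊) (M := 324 + ⌈1 / h ^ r⌉₊) (fun T U hTU => ?_) ?_
    (Ex_le_const fun T _ => sq_centre p0 p1) (by positivity) lev
    (Nat.ceil_pos.2 (by positivity)) (by have := card_cor a b; omega)).trans ?_
  · rw [coe_rect] at hTU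
    exact congrArg (· - _) ((loc_HC _ _ _ _).dep T U hTU)
  · rw [Ex_sub, Ex_const, P_eq ((loc_HC _ _ _ _).mono hQ), sub_self]
  · have a1 : g ^ r ≤ (h ^ r) ^ 3 := by
      rw [← pow_mul, mul_comm, pow_mul]
      exact pow_le_pow_left₀ (by linarith) h3 r
    have a2 : ((324 + ⌈1 / h ^ r⌉₊ : ℕ) : ℝ) ≤ 326 * (1 / h ^ r) := by push_cast; linarith
    have a3 : 1 / (⌈1 / h ^ r⌉₊ : ℝ) ≤ h ^ r := by
      rw [div_le_iff₀ (by linarith)]
      rw [div_le_iff₀ hr] at k2
      linarith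
    calc _ ≤ (326 * (1 / h ^ r)) ^ 2 * (2 * (h ^ r) ^ 3) + h ^ r := by gcongr
      _ = _ := by field_simp

end Pool.Agent.Lib.MP_e26b79_ns
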