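import Pool.Agent.Lib.MP_e26b79_pr.Template

namespace Pool.Agent.Lib.MP_e26b79_ns
open Finset Pool.Agent.Lib.MP_e26b79_pr

def rT : List (V × List (List V)) :=
  [
   ((-5, 0), [[(-4, 0), (-3, 0), (-2, 0), (-1, 0)]]),
   ((-4, -1), [[(-3, -1), (-2, -1), (-1, -1), (-1, 0)]]),
   ((-3, -2), [[(-2, -2), (-1, -2), (0, -2), (1, -2), (1, -1)], [(-3, -1), (-2, -1), (-1, -1), (-1, 0)]]),
   ((-2, -3), [[(-1, -3), (0, -3), (1, -3), (1, -2), (1, -1)], [(-2, -2), (-2, -1), (-1, -1), (-1, 0)]]),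
   ((-1, -4), [[(-1, -3), (0, -3), (1, -3), (1, -2), (1, -1)], [(-1, -3), (-1, -2), (-1, -1), (-1, 0)]]),
   ((0, -5), [[(0, -4), (0, -3), (1, -3), (1, -2), (1, -1)], [(0, -4), (0, -3), (0, -2), (0, -1)]]),
   ((1, -5), [[(1, -4), (1, -3), (1, -2), (1, -1)], [(1, -4), (1, -3), (1, -2), (0, -1)]]),
   ((2, -5), [[(2, -4), (2, -3), (2, -2), (2, -1), (1, 0)], [(1, -4), (1, -3), (1, -2), (0, -1)]]),
   ((3, -5), [[(3, -4), (3, -3), (3, -2), (2, -1), (1, 0)], [(2, -4), (1, -3), (1, -2), (0, -1)]]),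
   ((4, -5), [[(3, -4), (3, -3), (3, -2), (2, -1), (1, 0)], [(3, -4), (2, -3), (1, -2), (0, -1)]]),
   ((5, -5), [[(4, -4), (3, -3), (3, -2), (2, -1), (1, 0)], [(4, -4), (3, -3), (2, -3), (1, -2), (0, -1)]]),
   ((5, -4), [[(4, -3), (3, -2), (2, -1), (1, 0)], [(4, -3), (3, -3), (2, -3), (1, -2), (0, -1)]]),
   ((5, -3), [[(4, -2), (3, -1), (2, -1), (1, 0)], [(4, -3), (3, -3), (2, -3), (1, -2), (0, -1)]]),
   ((5, -2), [[(4, -1), (3, -1), (2, -1), (1, 0)], [(4, -2), (3, -2), (2, -2), (1, -2), (0, -1)]]),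
   ((5, -1), [[(4, -1), (3, -1), (2, -1), (1, 0)]]),
   ((5, 0), [[(4, 0), (3, 0), (2, 0), (1, 0)]])]

def rB : List (V × List (List V)) :=
  [
   ((-5, 0), [[(-4, 0), (-3, 0), (-2, 0), (-1, 0)]]),
   ((-5, 1), [[(-4, 1), (-3, 1), (-2, 1), (-1, 0)]]),
   ((-5, 2), [[(-4, 2), (-3, 2), (-2, 2), (-1, 2), (0, 1)], [(-4, 1), (-3, 1), (-2, 1), (-1, 0)]]),
   ((-5, 3), [[(-4, 3), (-3, 3), (-2, 3), (-1, 2), (0, 1)], [(-4, 2), (-3, 1), (-2, 1), (-1, 0)]]),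
   ((-5, 4), [[(-4, 3), (-3, 3), (-2, 3), (-1, 2), (0, 1)], [(-4, 3), (-3, 2), (-2, 1), (-1, 0)]]),
   ((-5, 5), [[(-4, 4), (-3, 3), (-2, 3), (-1, 2), (0, 1)], [(-4, 4), (-3, 3), (-2, 2), (-1, 1)]]),
   ((-4, 5), [[(-3, 4), (-2, 3), (-1, 2), (0, 1)], [(-3, 4), (-3, 3), (-2, 2), (-1, 1)]]),
   ((-3, 5), [[(-2, 4), (-1, 3), (0, 2), (1, 1), (1, 0)], [(-3, 4), (-3, 3), (-2, 2), (-1, 1)]]),
   ((-2, 5), [[(-1, 4), (-1, 3), (0, 2), (1, 1), (1, 0)], [(-2, 4), (-2, 3), (-2, 2), (-1, 1)]]),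
   ((-1, 5), [[(-1, 4), (-1, 3), (0, 2), (1, 1), (1, 0)], [(-1, 4), (-1, 3), (-1, 2), (-1, 1)]]),
   ((0, 5), [[(0, 4), (0, 3), (0, 2), (1, 1), (1, 0)], [(0, 4), (0, 3), (-1, 3), (-1, 2), (-1, 1)]]),
   ((1, 4), [[(1, 3), (1, 2), (1, 1), (1, 0)], [(1, 3), (0, 3), (-1, 3), (-1, 2), (-1, 1)]]),
   ((2, 3), [[(2, 2), (2, 1), (1, 1), (1, 0)], [(1, 3), (0, 3), (-1, 3), (-1, 2), (-1, 1)]]),
   ((3, 2), [[(3, 1), (2, 1), (1, 1), (1, 0)], [(2, 2), (1, 2), (0, 2), (-1, 2), (-1, 1)]]),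
   ((4, 1), [[(3, 1), (2, 1), (1, 1), (1, 0)]]),
   ((5, 0), [[(4, 0), (3, 0), (2, 0), (1, 0)]])]

def rL : List (V × List (List V)) :=
  [
   ((1, -5), [[(1, -4), (1, -3), (1, -2), (1, -1)]]),
   ((1, 4), [[(1, 3), (1, 2), (1, 1), (1, 0)]]),
   ((2, -5), [[(2, -4), (2, -3), (2, -2), (1, -1)]]),
   ((2, 3), [[(1, 3), (1, 2), (1, 1), (1, 0)]]),
   ((3, -5), [[(3, -4), (3, -3), (2, -2), (1, -1)]]),
   ((3, 2), [[(2, 2), (1, 2), (1, 1), (1, 0)]]),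
   ((4, -5), [[(3, -4), (3, -3), (2, -2), (1, -1)]]),
   ((4, 1), [[(3, 1), (2, 1), (1, 1), (1, 0)]]),
   ((5, -5), [[(4, -4), (3, -3), (2, -2), (1, -1)]]),
   ((5, -4), [[(4, -3), (3, -3), (2, -2), (1, -1)]]),
   ((5, -3), [[(4, -3), (3, -3), (2, -2), (1, -1)]]),
   ((5, -2), [[(4, -2), (3, -2), (2, -2), (1, -1)]]),
   ((5, -1), [[(4, -1), (3, -1), (2, -1), (1, -1)]]),
   ((5, 0), [[(4, 0), (3, 0), (2, 0), (1, 0)]])]

def rR : List (V × List (List V)) :=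
  [
   ((-5, 0), [[(-4, 0), (-3, 0), (-2, 0), (-1, 0)]]),
   ((-5, 1), [[(-4, 1), (-3, 1), (-2, 1), (-1, 1)]]),
   ((-5, 2), [[(-4, 2), (-3, 2), (-2, 2), (-1, 1)]]),
   ((-5, 3), [[(-4, 3), (-3, 3), (-2, 2), (-1, 1)]]),
   ((-5, 4), [[(-4, 3), (-3, 3), (-2, 2), (-1, 1)]]),
   ((-5, 5), [[(-4, 4), (-3, 3), (-2, 2), (-1, 1)]]),
   ((-4, -1), [[(-3, -1), (-2, -1), (-1, -1), (-1, 0)]]),
   ((-4, 5), [[(-3, 4), (-3, 3), (-2, 2), (-1, 1)]]),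
   ((-3, -2), [[(-2, -2), (-1, -2), (-1, -1), (-1, 0)]]),
   ((-3, 5), [[(-3, 4), (-3, 3), (-2, 2), (-1, 1)]]),
   ((-2, -3), [[(-1, -3), (-1, -2), (-1, -1), (-1, 0)]]),
   ((-2, 5), [[(-2, 4), (-2, 3), (-2, 2), (-1, 1)]]),
   ((-1, -4), [[(-1, -3), (-1, -2), (-1, -1), (-1, 0)]]),
   ((-1, 5), [[(-1, 4), (-1, 3), (-1, 2), (-1, 1)]])]

/-- every listed route is a path to the centre inside the allowed region -/
def RG (R : List (V × List (List V))) (ok : V → Prop) : Prop :=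
  ∀ r ∈ R, ∀ P ∈ r.2, pth r.1 P (0, 0) = true ∧ ∀ p ∈ P, hn p ≤ 4 ∧ ok p ∧
    ∀ w ∈ nbrs p, hn w ≤ 4 ∨ w = r.1 ∨ adj w r.1
def RP (R : List (V × List (List V))) : Prop :=
  ∀ r ∈ R, ∀ r' ∈ R, r.1 = r'.1 ∨ adj r.1 r'.1 ∨
    ∃ P ∈ r.2, ∃ P' ∈ r'.2, ∀ p ∈ P, ∀ q ∈ P', p ≠ q ∧ ¬ adj p q
def RC (R : List (V × List (List V))) (ok : V → Prop) : Prop :=
  ∀ i ∈ Icc (-5:ℤ) 5, ∀ j ∈ Icc (-5:ℤ) 5, hn (i, j) = 5 → ok (i, j) →
    ∃ r ∈ R, r.1 = (i, j) ∧ r.2 ≠ []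

theorem rT_g : RG rT fun p => p.2 ≤ 0 := by unfold RG; decide +kernel
theorem rT_p : RP rT := by unfold RP; decide +kernel
theorem rT_c : RC rT fun p => p.2 ≤ 0 := by unfold RC; decide +kernel
theorem rB_g : RG rB fun p => 0 ≤ p.2 := by unfold RG; decide +kernel
theorem rB_p : RP rB := by unfold RP; decide +kernel
theorem rB_c : RC rB fun p => 0 ≤ p.2 := by unfold RC; decide +kernel
theorem rL_g : RG rL fun p => 0 < p.1 := by unfold RG; decide +kernel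
theorem rL_c : RC rL fun p => 0 < p.1 := by unfold RC; decide +kernel
theorem rR_g : RG rR fun p => p.1 < 0 := by unfold RG; decide +kernel
theorem rR_c : RC rR fun p => p.1 < 0 := by unfold RC; decide +kernel
theorem rI_g : RG routes fun p => p ≠ (1, 0) ∧ ¬ adj p (1, 0) := fun r hr P hP =>
  ⟨(routes_good r hr P hP).1, fun p hp => by
    have := (routes_good r hr P hP).2 p hp
    exact ⟨this.1, ⟨this.2.1, this.2.2.1⟩, this.2.2.2⟩⟩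
theorem rI_c : RC routes fun _ => True := by unfold RC; decide +kernel

def Gd2 (ok : V → Prop) (x v : V) (P : Set V) : Prop :=
  P.Finite ∧ (∀ S : Set V, v ∈ S → x ∈ S → P ⊆ S → Conn S v x) ∧ ∀ p ∈ P, hn (p - x) ≤ 4 ∧
    ok (p - x) ∧ ∀ w, adj p w → hn (w - x) ≤ 4 ∨ w = v ∨ adj w v

variable {R : List (V × List (List V))} {ok ok' : V → Prop}

theorem gd2_route (hg : RG R ok) (x : V) {r : V × List (List V)} (hr : r ∈ R) {P : List V}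
    (hP : P ∈ r.2) {v : V} (hv : r.1 = v - x) : Gd2 ok x v {p | p - x ∈ P} := by
  obtain ⟨h1, h2⟩ := hg r hr P hP
  refine ⟨(P.finite_toSet.image (· + x)).subset fun p hp => ⟨p - x, hp, by simp⟩,
    fun S a1 a2 a3 => ?_, fun p hp => ?_⟩
  · have := (pth_conn (S := sh x S) (b := (0, 0)) (by simpa [sh, Prod.mk_zero_zero] using a2) P _ h1
      (by simpa [sh, hv] using a1) fun c hc => a3 (by simpa using hc)).map (· + x)
      (fun a b h => Or.inr (adj_add x a b h)) (S' := S) fun a ha => ha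
    simpa [hv, Prod.mk_zero_zero] using this
  · obtain ⟨a1, a2, a4⟩ := h2 _ hp
    refine ⟨a1, a2, fun w hw => ?_⟩
    have := a4 _ (mem_nbrs ((adj_sub x).2 hw))
    rwa [hv, sub_left_inj, adj_sub] at this

theorem RC.get (hc : RC R ok') {w : V} (hw : hn w = 5) (h : ok' w) :
    ∃ r ∈ R, r.1 = w ∧ r.2 ≠ [] :=
  hc w.1 (by simp only [hn, nu, mem_Icc] at *; omega) w.2
    (by simp only [hn, nu, mem_Icc] at *; omega) hw h

theorem one_route (hg : RG R ok) (hc : RC R ok') {x v : V} (hv : hn (v - x) = 5)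
    (h : ok' (v - x)) : ∃ P, Gd2 ok x v P := by
  obtain ⟨r, a1, a2, a3⟩ := hc.get hv h
  obtain ⟨P, hP⟩ := List.exists_mem_of_ne_nil _ a3
  exact ⟨_, gd2_route hg x a1 hP a2⟩

theorem two_route (hg : RG R ok) (hp : RP R) (hc : RC R ok') {x v v' : V} (hv : hn (v - x) = 5)
    (hv' : hn (v' - x) = 5) (k : ok' (v - x)) (k' : ok' (v' - x)) (h1 : v ≠ v') (h2 : ¬ adj v v') :
    ∃ P1 P2, Gd2 ok x v P1 ∧ Gd2 ok x v' P2 ∧ ∀ p ∈ P1, ∀ q ∈ P2, p ≠ q ∧ ¬ adj p q := by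
  obtain ⟨r, a1, a2, -⟩ := hc.get hv k
  obtain ⟨r', a3, a4, -⟩ := hc.get hv' k'
  rcases hp r a1 r' a3 with h | h | ⟨P, hP, P', hP', h⟩
  · rw [a2, a4, sub_left_inj] at h
    exact absurd h h1
  · rw [a2, a4, adj_sub] at h
    exact absurd h h2
  · refine ⟨_, _, gd2_route hg x a1 hP a2, gd2_route hg x a3 hP' a4, fun p hp q hq => ?_⟩
    have := h _ hp _ hq
    rwa [Ne, sub_left_inj, adj_sub] at this

theorem conn_sw' {x y u v : V} {X : Finset V} {D : Set V} (hy : y ∉ X)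
    (hn : y ∈ D → ∀ w, adj w y → w ≠ x → w ∉ X) (hu : u ≠ y)
    (h : Conn ((sw x y X : Finset V) ∩ D) u v) : Conn ((X \ {x}) ∩ D) u v := by
  have k : ∀ w ∈ sw x y X, w ≠ y → w ∈ (X : Set V) \ {x} := by
    intro w hw h1
    have h2 : w ≠ x := by
      rintro rfl
      rw [mem_sw, Equiv.swap_apply_left] at hw
      exact hy hw
    rw [mem_sw, Equiv.swap_apply_of_ne_of_ne h2 h1] at hw
    exact ⟨hw, h2⟩
  refine h.closed (P := fun w => Conn ((X \ {x}) ∩ D) u w) (.refl ⟨k u h.left.1 hu, h.left.2⟩) ?_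
  intro a b _ hb hab ha
  refine .step ha hab ⟨k b hb.1 ?_, hb.2⟩
  rintro rfl
  exact hn hb.2 a hab ha.right.1.2 ha.right.1.1

theorem HC_iff {x0 x1 y0 y1 : ℤ} {S : Set V} :
    HC x0 x1 y0 y1 S ↔ ∃ l r : V, l.1 = x0 ∧ r.1 = x1 ∧ Conn (S ∩ rs x0 x1 y0 y1) l r :=
  ⟨fun ⟨_, l, r, h1, h2, h3, h4⟩ => ⟨l, r, h1, h2, h3.symm.trans h4⟩,
    fun ⟨_, _, h1, h2, h3⟩ => HC_of_conn h1 h2 h3⟩

/-- a path joining the column `c0` to the centre `x` through the hexagon -/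
def Side (Q η : Set V) (x y : V) (c0 c1 : ℤ) (P : Set V) : Prop :=
  P.Finite ∧ (∀ S : Set V, η ⊆ S → P ⊆ S → x ∈ S → ∃ l : V, l.1 = c0 ∧ Conn S l x) ∧
    ∀ p ∈ P, p ∈ hex x ∧ p ∈ Q ∧ p.1 ≠ c1 ∧ p ≠ y ∧ (y ∈ Q → ¬ adj p y) ∧
      ∀ w ∈ η, adj p w → ∃ l : V, l.1 = c0 ∧ Conn η l w

theorem side_empty {Q η : Set V} {x y : V} {c0 c1 : ℤ} (h : x.1 = c0) : Side Q η x y c0 c1 ∅ :=
  ⟨Set.finite_empty, fun _ _ _ hx => ⟨x, h, .refl hx⟩, fun _ hp => absurd hp (Set.notMem_empty _)⟩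

theorem side_gd {Q η P : Set V} {x y v l : V} {c0 c1 : ℤ} (h : Gd2 ok x v P) (hl : l.1 = c0)
    (hc : Conn η l v) (hη : ∀ w ∈ η, w ∉ hex x)
    (hok : ∀ p, hn (p - x) ≤ 4 → ok (p - x) → p ∈ Q ∧ p.1 ≠ c1 ∧ p ≠ y ∧ (y ∈ Q → ¬ adj p y)) :
    Side Q η x y c0 c1 P := by
  obtain ⟨p1, p2, p3⟩ := h
  refine ⟨p1, fun S a1 a2 a3 => ⟨l, hl, (hc.mono a1).trans (p2 S (a1 hc.right) a3 a2)⟩,
    fun p hp => ?_⟩
  obtain ⟨b1, b2, b3⟩ := p3 p hp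
  obtain ⟨c1, c2, c3, c4⟩ := hok p b1 b2
  refine ⟨mem_hex.2 b1, c1, c2, c3, c4, fun w hw hpw => ?_⟩
  rcases b3 w hpw with d | d | d
  · exact absurd (mem_hex.2 d) (hη w hw)
  · exact ⟨l, hl, d ▸ hc⟩
  · exact ⟨l, hl, .step hc d.symm hw⟩

theorem tmpl_gen {a b : ℤ} {x y : V} (hx : x ∈ rs 0 a 0 b) (hxy : adj x y)
    (hy0 : y ∈ rs 0 a 0 b → y.1 ≠ 0)
    (hT : ∀ η : Set V, (∀ w ∈ η, w ∈ rs 0 a 0 b ∧ w ∉ hex x) →
      (∀ u v : V, u.1 = 0 → v.1 = a → ¬ Conn η u v) →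
      (∃ u v : V, u.1 = 0 ∧ v.1 = a ∧ Conn (η ∪ (hex x ∩ rs 0 a 0 b)) u v) →
      ∃ P1 P2, Side (rs 0 a 0 b) η x y 0 a P1 ∧ Side (rs 0 a 0 b) η x y a 0 P2 ∧
        ∀ p ∈ P1, ∀ q ∈ P2, p ≠ q ∧ ¬ adj p q) :
    ∃ 𝒯 ⊆ (hex x).powerset, ∀ T : Finset V,
      ind (HC 0 a 0 b (mix (hex x) (hex x) T : Finset V)) -
        ind (HC 0 a 0 b (mix (hex x) ∅ T : Finset V)) ≤
      ∑ A ∈ 𝒯, (ind (HC 0 a 0 b (mix (hex x) A T : Finset V)) -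
        ind (HC 0 a 0 b (sw x y (mix (hex x) A T) : Finset V))) := by
  classical
  set H := hex x with hH
  set Q := rs 0 a 0 b with hQ
  have yH : y ∈ H := by
    simp only [hH, mem_hex, hn, nu, adj, Prod.fst_sub, Prod.snd_sub] at *
    omega
  have xH : x ∈ H := by simp [hH, mem_hex, hn, nu]
  have nH : ∀ w, adj w y → w ∈ H := fun w hw => by
    simp only [hH, mem_hex, hn, nu, adj, Prod.fst_sub, Prod.snd_sub] at *
    omega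
  refine ⟨H.powerset.filter fun A => y ∉ A ∧ (y ∈ Q → ∀ w, adj w y → w ≠ x → w ∉ A),
    filter_subset _ _, fun T => ?_⟩
  have k0 : ∀ A : Finset V, (y ∉ A ∧ (y ∈ Q → ∀ w, adj w y → w ≠ x → w ∉ A)) →
      HC 0 a 0 b (sw x y (mix H A T) : Finset V) → ∃ u v : V, u.1 = 0 ∧ v.1 = a ∧
        Conn ((((mix H A T : Finset V) : Set V) \ {x}) ∩ Q) u v := by
    rintro A ⟨a1, a2⟩ h
    obtain ⟨u, v, e1, e2, c⟩ := HC_iff.1 h
    refine ⟨u, v, e1, e2, conn_sw' (by rwa [mem_mix_of_mem yH])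
      (fun hq w hw hw' => by rw [mem_mix_of_mem (nH w hw)]; exact a2 hq w hw hw') ?_ c⟩
    rintro rfl
    exact hy0 c.left.2 e1
  have k1 : ∀ A ∈ H.powerset.filter fun A => y ∉ A ∧ (y ∈ Q → ∀ w, adj w y → w ≠ x → w ∉ A),
      0 ≤ ind (HC 0 a 0 b (mix H A T : Finset V)) -
        ind (HC 0 a 0 b (sw x y (mix H A T) : Finset V)) := by
    intro A hA
    refine sub_nonneg.2 (ind_mono fun h => ?_)
    obtain ⟨u, v, e1, e2, c⟩ := k0 A (mem_filter.1 hA).2 h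
    exact HC_of_conn e1 e2 (c.mono fun w hw => ⟨hw.1.1, hw.2⟩)
  by_cases a1 : HC 0 a 0 b (mix H H T : Finset V)
  swap
  · rw [ind_neg a1]
    exact le_trans (by linarith [ind_nonneg (HC 0 a 0 b (mix H ∅ T : Finset V))]) (sum_nonneg k1)
  by_cases a2 : HC 0 a 0 b (mix H ∅ T : Finset V)
  · rw [ind_pos a1, ind_pos a2, sub_self]
    exact sum_nonneg k1
  rw [ind_pos a1, ind_neg a2, sub_zero]
  obtain ⟨η, hη⟩ : ∃ η : Set V, η = ((mix H ∅ T : Finset V) : Set V) ∩ Q := ⟨_, rfl⟩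
  have mη : ∀ w, w ∈ η ↔ (w ∉ H ∧ w ∈ T) ∧ w ∈ Q := fun w => by simp [hη, mem_mix]
  have noarm : ∀ u v : V, u.1 = 0 → v.1 = a → ¬ Conn η u v := fun u v e1 e2 c =>
    a2 (HC_of_conn e1 e2 (hη ▸ c))
  obtain ⟨u, v, e1, e2, c⟩ := HC_iff.1 a1
  obtain ⟨P1, P2, ⟨p1, p2, p3⟩, ⟨q1, q2, q3⟩, pq⟩ := hT η
    (fun w hw => ⟨((mη w).1 hw).2, ((mη w).1 hw).1.1⟩) noarm ⟨u, v, e1, e2, c.mono fun w hw => by
      by_cases h : w ∈ H
      · exact Or.inr ⟨h, hw.2⟩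
      · exact Or.inl ((mη w).2 ⟨⟨h, (mem_mix_of_notMem h).1 hw.1⟩, hw.2⟩)⟩
  let A : Finset V := insert x (p1.union q1).toFinset
  have mA : ∀ w, w ∈ A ↔ w = x ∨ w ∈ P1 ∨ w ∈ P2 := fun w => by simp [A]
  have AH : ∀ w ∈ A, w ∈ H ∧ w ∈ Q := fun w hw => by
    rcases (mA w).1 hw with rfl | h | h
    · exact ⟨xH, hx⟩
    · exact ⟨(p3 w h).1, (p3 w h).2.1⟩
    · exact ⟨(q3 w h).1, (q3 w h).2.1⟩
  have hA : y ∉ A ∧ (y ∈ Q → ∀ w, adj w y → w ≠ x → w ∉ A) := by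
    refine ⟨fun h => ?_, fun hq w a1 a2 h => ?_⟩
    · rcases (mA y).1 h with h | h | h
      · exact hxy.ne h.symm
      · exact (p3 y h).2.2.2.1 rfl
      · exact (q3 y h).2.2.2.1 rfl
    · rcases (mA w).1 h with h | h | h
      · exact a2 h
      · exact (p3 w h).2.2.2.2.1 hq a1
      · exact (q3 w h).2.2.2.2.1 hq a1
  refine le_trans (le_of_eq ?_) (single_le_sum k1
    (mem_filter.2 ⟨mem_powerset.2 fun w hw => (AH w hw).1, hA⟩))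
  have s1 : η ⊆ ((mix H A T : Finset V) : Set V) ∩ Q := fun w hw =>
    ⟨mem_mix.2 (Or.inr ((mη w).1 hw).1), ((mη w).1 hw).2⟩
  have s2 : ∀ w ∈ A, w ∈ ((mix H A T : Finset V) : Set V) ∩ Q := fun w hw =>
    ⟨mem_mix.2 (Or.inl ⟨(AH w hw).1, hw⟩), (AH w hw).2⟩
  rw [ind_pos, ind_neg, sub_zero]
  · intro h
    obtain ⟨u', v', b1, b2, c'⟩ := k0 A hA h
    have cs : ∀ w ∈ (((mix H A T : Finset V) : Set V) \ {x}) ∩ Q, w ∈ η ∨ w ∈ P1 ∨ w ∈ P2 := by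
      rintro w ⟨⟨d1, d2⟩, d3⟩
      rcases mem_mix.1 d1 with d | d
      · exact Or.inr (((mA w).1 d.2).resolve_left d2)
      · exact Or.inl ((mη w).2 ⟨d, d3⟩)
    have := c'.closed (P := fun w => w ∈ P1 ∨ ∃ u0 : V, u0.1 = 0 ∧ Conn η u0 w) ?_ ?_
    · rcases this with d | ⟨u0, d1, d2⟩
      · exact (p3 v' d).2.2.1 b2
      · exact noarm u0 v' d1 b2 d2
    · rcases cs u' c'.left with d | d | d
      · exact Or.inr ⟨u', b1, .refl d⟩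
      · exact Or.inl d
      · exact absurd b1 (q3 u' d).2.2.1
    · rintro s t - hb hab (ha | ⟨u0, d1, d2⟩)
      · rcases cs t hb with d | d | d
        · exact Or.inr ((p3 s ha).2.2.2.2.2 t d hab)
        · exact Or.inl d
        · exact absurd hab (pq s ha t d).2
      · rcases cs t hb with d | d | d
        · exact Or.inr ⟨u0, d1, .step d2 hab d⟩
        · exact Or.inl d
        · obtain ⟨l, l1, l2⟩ := (q3 t d).2.2.2.2.2 s d2.right hab.symm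
          exact absurd (d2.trans l2.symm) (noarm u0 l d1 l1)
  · have x1 := s2 x ((mA x).2 (Or.inl rfl))
    obtain ⟨l, l1, l2⟩ := p2 _ s1 (fun w hw => s2 w ((mA w).2 (Or.inr (Or.inl hw)))) x1
    obtain ⟨r, r1, r2⟩ := q2 _ s1 (fun w hw => s2 w ((mA w).2 (Or.inr (Or.inr hw)))) x1
    exact HC_of_conn l1 r1 (l2.trans r2.symm)

end Pool.Agent.Lib.MP_e26b79_ns
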