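import Pool.Agent.Lib.MP_e26b79_pr.Process
import Pool.Agent.Lib.MP_e26b79_ns.Spec
import Pool.Agent.Lib.MP_e26b79_ns.Cov
import Pool.Agent.Lib.MP_e26b79_ns.Defs

namespace Pool.Agent.Lib.MP_e26b79_ns
open Finset Filter Topology MeasureTheory ProbabilityTheory Pool.Agent.Lib.MP_e26b79_pr
open scoped NNReal ENNReal

theorem run_add {α ι : Type*} (σ : ι → Finset α → Finset α) (B : ℕ → Finset ι) (T : Finset α)
    (m : ℕ) : ∀ k, run σ B T (m + k) = run σ (fun i => B (m + i)) (run σ B T m) k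
  | 0 => rfl
  | k + 1 => by rw [← add_assoc, run, run, run_add σ B T m k]

theorem rings_shift (n : Sym2 V → ℝ≥0 → ℕ) (T : ℝ≥0) (j i : ℕ) (E : Finset (Sym2 V)) :
    (fun k => rings n T j E (i * 2 ^ j + k)) = rings (fun e u => n e (i * T + u)) T j E := by
  have : ∀ k, tk T j (i * 2 ^ j + k) = i * T + tk T j k := fun k => by
    unfold tk; push_cast; field_simp
  funext k
  ext e
  simp only [rings, inc, add_assoc, this, mem_filter]

theorem run_blocks {n : Sym2 V → ℝ≥0 → ℕ} (hn : ∀ e, Monotone (n e)) {T : ℝ≥0}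
    (hg : ∀ k : ℕ, Good (fun e u => n e (k * T + u)) T) (K : ℕ) : ∀ Q : Set V, Q.Finite →
    ∀ᶠ N in atTop, ∀ᶠ j in atTop, ∀ x ∈ Q, ∃ y ∈ Lb 0 N, Src n x (K * T) y ∧
      ∀ X, (x ∈ run swe (rings n T j (Lb 0 N).sym2) X (K * 2 ^ j) ↔ y ∈ X) := by
  have hb : ∀ D : Set V, D.Finite → ∀ᶠ N in atTop, ∀ y ∈ D, y ∈ Lb 0 N := fun D hD => by
    obtain ⟨N0, h1⟩ := exists_nu_bound hD
    filter_upwards [eventually_ge_atTop N0] with N hN y hy
    have := h1 y hy
    exact mem_Lb.2 ⟨by unfold nu; push_cast; omega, by omega⟩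
  induction K with
  | zero =>
    intro Q hQ
    filter_upwards [hb Q hQ] with N hN
    refine Eventually.of_forall fun j x hx => ⟨x, hN x hx, ?_, fun X => ?_⟩
    · rw [Nat.cast_zero, zero_mul]; exact .start x
    · rw [zero_mul]; rfl
  | succ K ih =>
    intro Q hQ
    obtain ⟨n', hn'⟩ : ∃ n' : Sym2 V → ℝ≥0 → ℕ, n' = fun e u => n e (K * T + u) := ⟨_, rfl⟩
    have g := hg K
    rw [← hn'] at g
    have m' : ∀ e, Monotone (n' e) := fun e a b hab => hn' ▸ hn e (add_le_add le_rfl hab)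
    have fD : (⋃ x ∈ Q, clu n' T x).Finite := hQ.biUnion fun x _ => g.1 x
    filter_upwards [ih _ fD, hb _ fD] with N h1 hL
    have hcl : ∀ x ∈ ⋃ x ∈ Q, clu n' T x, ∀ z, n' s(x, z) T ≠ n' s(x, z) 0 →
        z ∈ (⋃ x ∈ Q, clu n' T x) ∧ s(x, z) ∈ (Lb 0 N).sym2 := by
      intro x hx z hz
      obtain ⟨x0, a1, a2⟩ := Set.mem_iUnion₂.1 hx
      have : z ∈ ⋃ x ∈ Q, clu n' T x := Set.mem_biUnion a1 (Relation.ReflTransGen.tail a2 hz)
      exact ⟨this, mk_mem_sym2_iff.2 ⟨hL x hx, hL z this⟩⟩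
    filter_upwards [h1, (eventually_all_finset (Lb 0 N).sym2).2 fun e _ =>
      (eventually_all_finset (Lb 0 N).sym2).2 fun e' _ => g.2 e e'] with j h2 hj x hx
    obtain ⟨y, a1, a2, a3⟩ := run_src m' (E0 := (Lb 0 N).sym2) hcl hj _ le_rfl x
      (Set.mem_biUnion hx Relation.ReflTransGen.refl)
    obtain ⟨y', b1, b2, b3⟩ := h2 y a1
    rw [tk_last, hn'] at a2
    refine ⟨y', b1, ?_, fun X => ?_⟩
    · rw [Nat.cast_succ, add_mul, one_mul]
      exact a2.shift b2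
    · rw [add_mul, one_mul, run_add, rings_shift, ← hn',
        a3 _ Set.Subset.rfl fun x hx z hz => (hcl x hx z hz).2, b3]

theorem black_zero {n : Sym2 V → ℝ≥0 → ℕ} {c : V → Bool} {x : V} :
    x ∈ black n c 0 ↔ c x = true :=
  ⟨fun h => h.2 x (.start x), fun h => ⟨⟨x, .start x⟩, fun _ hy => hy.zero rfl ▸ h⟩⟩

variable {Ω : Type*} [m0 : MeasurableSpace Ω] {μ : Measure Ω} [IsProbabilityMeasure μ]

theorem lim_lower {p : ℕ → ℕ → Ω → Prop} (hp : ∀ n j, MeasurableSet {w | p n j w}) {A : Set Ω}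
    (hA : ∀ᵐ w ∂μ, ∀ᶠ n in atTop, ∀ᶠ j in atTop, (p n j w ↔ w ∈ A)) : NullMeasurableSet A μ ∧
    ∀ c, (∀ᶠ n in atTop, ∀ᶠ j in atTop, c ≤ μ.real {w | p n j w}) → c ≤ μ.real A := by
  have e : {w | ∃ᶠ n in atTop, ∃ᶠ j in atTop, p n j w} =ᵐ[μ] A := by
    filter_upwards [hA] with w hw
    refine propext ⟨fun h => ?_, fun a => (hw.mono fun n hn =>
      (hn.mono fun j hj => hj.2 a).frequently).frequently⟩
    obtain ⟨n, h1, h2⟩ := (Frequently.and_eventually h hw).exists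
    obtain ⟨j, h3, h4⟩ := (Frequently.and_eventually h1 h2).exists
    exact h4.1 h3
  refine ⟨(meas_freq fun n => meas_freq fun j => hp n j).nullMeasurableSet.congr e, fun c hc => ?_⟩
  rw [← measureReal_congr e]
  exact freq_lower (fun n => meas_freq fun j => hp n j) (hc.mono fun n hn => freq_lower (hp n) hn)

theorem lim_abs {p : ℕ → ℕ → Ω → Prop} (hp : ∀ n j, MeasurableSet {w | p n j w}) {A : Set Ω}
    (hA : ∀ᵐ w ∂μ, ∀ᶠ n in atTop, ∀ᶠ j in atTop, (p n j w ↔ w ∈ A)) {c d : ℝ}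
    (h : ∀ᶠ n in atTop, ∀ᶠ j in atTop, |μ.real {w | p n j w} - c| ≤ d) : |μ.real A - c| ≤ d := by
  obtain ⟨a1, a2⟩ := lim_lower hp hA
  obtain ⟨-, a3⟩ := lim_lower (μ := μ) (p := fun n j w => ¬ p n j w) (A := Aᶜ)
    (fun n j => (hp n j).compl)
    (hA.mono fun w hw => hw.mono fun n hn => hn.mono fun j hj => not_congr hj)
  have b1 := a2 (c - d) (h.mono fun n hn => hn.mono fun j hj => by linarith [(abs_le.1 hj).1])
  have b2 := a3 (1 - (c + d)) (h.mono fun n hn => hn.mono fun j hj => by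
    have := probReal_compl_eq_one_sub (μ := μ) (hp n j)
    have e : μ.real {w | ¬ p n j w} = μ.real {w | p n j w}ᶜ := rfl
    linarith [(abs_le.1 hj).2])
  rw [probReal_compl_eq_one_sub₀ a1] at b2
  exact abs_le.2 ⟨by linarith, by linarith⟩

variable {c : V → Ω → Bool} {N : Sym2 V → ℝ≥0 → Ω → ℕ} {r : Sym2 V → ℝ≥0}

/-- the event seen by the finite chain -/
def Ev (c : V → Ω → Bool) (N : Sym2 V → ℝ≥0 → Ω → ℕ) (F G : Finset V → Prop) (T : ℝ≥0) (K n j : ℕ)
    (w : Ω) : Prop := G ((Lb 0 n).filter fun v => c v w = true) ∧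
  F (run swe (fun k => rings (fun e t => N e t w) T j (Lb 0 n).sym2 k)
    ((Lb 0 n).filter fun v => c v w = true) (K * 2 ^ j))

omit [IsProbabilityMeasure μ] in
theorem Ev_meas (h : Model μ c N r) (F G : Finset V → Prop) (T : ℝ≥0) (K n j : ℕ) :
    MeasurableSet {w | Ev c N F G T K n j w} := by
  refine meas_det ((Lb 0 n).disjSum ((Lb 0 n).sym2 ×ˢ range (K * 2 ^ j)))
    (Sum.elim (fun v w => c v w = true)
      (fun q w => inc (fun e t => N e t w) T j q.2 q.1 ≠ 0)) ?_ _ ?_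
  · rintro (v | ⟨e, k⟩) _
    · exact h.le _ _ (sig_c c N v fun b => b = true)
    · exact h.le _ _ (sig_N c N e (tk T j (k + 1)) (tk T j k) fun a b => a - b ≠ 0)
  · rintro w w' h h2
    unfold Ev at *
    rwa [Set.mem_ofPred_eq, ← filter_congr (p := fun v => c v w = true) (q := fun v => c v w' = true)
        fun v hv => h (.inl v) (inl_mem_disjSum.2 hv),
      ← run_congr swe _ _ (B := fun k => rings (fun e t => N e t w) T j (Lb 0 n).sym2 k)
        (B' := fun k => rings (fun e t => N e t w') T j (Lb 0 n).sym2 k) fun i hi =>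
        filter_congr (q := fun e => inc (fun e t => N e t w') T j i e ≠ 0) fun e he => h (.inr (e, i))
          (inr_mem_disjSum.2 (mem_product.2 ⟨he, mem_range.2 hi⟩))]

theorem Ev_law (h : Model μ c N r) (F G : Finset V → Prop) (T : ℝ≥0) (K n j : ℕ) :
    μ.real {w | Ev c N F G T K n j w} = Ex (Lb 0 n) (fun X => ind (G X) *
      (Kop swe (fun e => 1 - Real.exp (-(r e * (T / 2 ^ j) : ℝ≥0))) (Lb 0 n).sym2)^[K * 2 ^ j]
        (fun U => ind (F U)) X) := by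
  refine pair_prob μ swe _ _ F G (Lb 0 n) (fun w => (Lb 0 n).filter fun v => c v w = true)
      (fun k w => rings (fun e t => N e t w) T j (Lb 0 n).sym2 k) (fun _ => filter_subset _ _)
      (fun _ _ => filter_subset _ _) (fun X => ?_) (fun k b => ?_)
      (fun X hX m B hB => h.law T j _ _ X hX m B hB) _
  · exact meas_det (Lb 0 n) (fun v w => c v w = true)
      (fun v _ => h.le _ _ (sig_c c N v fun b => b = true))
      _ fun w w' h1 h2 => (filter_congr fun v hv => (h1 v hv).symm).trans h2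
  · exact meas_det (Lb 0 n).sym2 (fun e w => inc (fun e t => N e t w) T j k e ≠ 0)
      (fun e _ => h.le _ _ (sig_N c N e (tk T j (k + 1)) (tk T j k) fun a b => a - b ≠ 0))
      _ fun w w' h1 h2 => (filter_congr fun v hv => (h1 v hv).symm).trans h2

theorem Lb_event {D : Set V} (hD : D.Finite) : ∀ᶠ n in atTop, ∀ y ∈ D, y ∈ Lb 0 n := by
  obtain ⟨N0, h1⟩ := exists_nu_bound hD
  filter_upwards [eventually_ge_atTop N0] with n hn y hy
  have := h1 y hy
  exact mem_Lb.2 ⟨by unfold nu; push_cast; omega, by omega⟩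

theorem Ev_ae (h : Model μ c N r) {M T : ℝ≥0} (hM : ∀ x, ∑' y, (r s(x, y) : ℝ≥0∞) ≤ M)
    (hT : M * T < 1) {F G : Set V → Prop} {D : Set V} (hD : D.Finite) (hF : Loc F D) (hG : Loc G D)
    (K : ℕ) : ∀ᵐ w ∂μ, ∀ᶠ n in atTop, ∀ᶠ j in atTop,
      (Ev c N (fun X => F X) (fun X => G X) T K n j w ↔
        w ∈ {w | G (black (fun e t => N e t w) (fun x => c x w) 0)} ∩
          {w | F (black (fun e t => N e t w) (fun x => c x w) (K * T))}) := by
  filter_upwards [ae_all_iff.2 fun k : ℕ => (h.shift (k * T)).ae_good hM hT] with w hw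
  have hn := fun e => (h.pois e).mono w
  filter_upwards [run_blocks hn hw K D hD, Lb_event hD] with n h1 hL
  filter_upwards [h1] with j h2
  refine and_congr (hG.iff fun v hv => ?_) (hF.iff fun v hv => ?_)
  · rw [black_zero, mem_coe, mem_filter, and_iff_right (hL v hv)]
  · obtain ⟨y, a1, a2, a3⟩ := h2 v hv
    refine (a3 _).trans ?_
    rw [mem_filter]
    exact ⟨fun h => ⟨⟨y, a2⟩, fun y' h' => a2.unique hn y' h' ▸ h.2⟩, fun h => ⟨a1, h.2 y a2⟩⟩

theorem split_time (M t : ℝ≥0) : ∃ (K : ℕ) (T : ℝ≥0), M * T < 1 ∧ K * T = t := by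
  obtain ⟨K, hK⟩ := exists_nat_gt (M * t)
  have K0 : (0:ℝ≥0) < K := lt_of_le_of_lt zero_le hK
  exact ⟨K, t / K, by rwa [← mul_div_assoc, div_lt_one K0], mul_div_cancel₀ _ K0.ne'⟩

/-- the product law is stationary -/
theorem stat (h : Model μ c N r) {M : ℝ≥0} (hM : ∀ x, ∑' y, (r s(x, y) : ℝ≥0∞) ≤ M)
    {F : Set V → Prop} {D : Set V} (hD : D.Finite) (hF : Loc F D) (t : ℝ≥0) :
    NullMeasurableSet {w | F (black (fun e t => N e t w) (fun x => c x w) t)} μ ∧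
      μ.real {w | F (black (fun e t => N e t w) (fun x => c x w) t)} = P F := by
  obtain ⟨K, T, h1, rfl⟩ := split_time M t
  have e := Ev_ae h hM h1 hD hF (G := fun _ => True) (fun _ _ _ _ => trivial) K
  simp only [Set.ofPred_true, Set.univ_inter] at e
  refine ⟨(lim_lower (fun n j => Ev_meas h _ _ T K n j) e).1, ?_⟩
  rw [← sub_eq_zero, ← abs_nonpos_iff]
  refine lim_abs (fun n j => Ev_meas h _ _ T K n j) e ?_
  filter_upwards [Lb_event hD] with n hn
  refine Eventually.of_forall fun j => le_of_eq ?_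
  rw [Ev_law h]
  simp only [ind_pos trivial, one_mul]
  rw [Ex_iter swe_inv.1 swe_inv.2, P_eq (hF.mono hn), sub_self, abs_zero]

theorem wt_empty {ι : Type*} [DecidableEq ι] {E : Finset ι} {l : ι → ℝ}
    (hs : ∑ e ∈ E, l e ≤ 1 / 2) : 1 / 2 ≤ wt (fun e => 1 - Real.exp (-l e)) E ∅ := by
  simp only [wt, notMem_empty, if_false, sub_sub_cancel]
  rw [← Real.exp_sum, sum_neg_distrib]
  linarith [Real.add_one_le_exp (-∑ e ∈ E, l e)]

theorem pt_inj {a b : ℤ} : Set.InjOn (fun x => s(x, pt b x)) (dm a b) := by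
  intro x hx y hy hxy
  obtain ⟨a1, a2, -⟩ := mem_dm.1 hx
  obtain ⟨b1, b2, -⟩ := mem_dm.1 hy
  have s1 := G_sep a1 b1
  have s2 := G_sep a2 b2
  have e := adj_pt b x
  rcases Sym2.eq_iff.1 hxy with h | h
  · exact h.1
  · rw [h.2] at e
    clear a1 a2 b1 b2
    unfold adj at e
    exact Prod.ext (by omega) (by omega)

/-- covariance bound from a variational bound -/
theorem cov_le (h : Model μ c N r) {M κ : ℝ≥0} (hM : ∀ x, ∑' y, (r s(x, y) : ℝ≥0∞) ≤ M)
    (hκ : 0 < κ) (hr : ∀ x y : V, adj x y → κ ≤ r s(x, y)) {a b : ℤ} {R : ℝ} {D : Set V}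
    (hD : D.Finite) (hD1 : rs (-1) (a + 1) (-1) (b + 1) ⊆ D)
    (hv : ∀ L : Finset V, (∀ v ∈ D, v ∈ L) → ∀ g : Finset V → ℝ,
      2 * Ex L (fun T => (ind (HC 0 a 0 b T) - P (HC 0 a 0 b)) * g T) - Ex L (fun T => g T ^ 2) -
        1 / 2 * ∑ x ∈ dm a b, Ex L (fun T => (g T - g (sw x (pt b x) T)) ^ 2) ≤ R)
    {t : ℝ≥0} (ht : 0 < t) :
    |μ.real ({w | HC 0 a 0 b (black (fun e t => N e t w) (fun x => c x w) 0)} ∩
      {w | HC 0 a 0 b (black (fun e t => N e t w) (fun x => c x w) t)}) - P (HC 0 a 0 b) ^ 2| ≤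
      √((1 + 4 / (κ * t)) * R) := by
  obtain ⟨K, T, h1, rfl⟩ := split_time M t
  refine lim_abs (fun n j => Ev_meas h _ _ T K n j)
    (Ev_ae h hM h1 (rs_finite _ _ _ _) (loc_HC _ _ _ _) (loc_HC _ _ _ _) K) ?_
  filter_upwards [Lb_event hD] with n hn
  set L := Lb 0 n with hL
  have t2 := tendsto_pow_atTop_atTop_of_one_lt (one_lt_two (α := ℝ))
  filter_upwards [t2.eventually_ge_atTop (2 * (∑ e ∈ L.sym2, (r e : ℝ)) * T),
    t2.eventually_ge_atTop ((dm a b).card * (κ * T)), eventually_ge_atTop 1] with j hj hj' hj1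
  obtain ⟨i, rfl⟩ : ∃ i, j = i + 1 := ⟨j - 1, by omega⟩
  have p2 : (0:ℝ) < 2 ^ (i + 1) := by positivity
  have hQ : rs 0 a 0 b ⊆ L := fun v hv => hn v (hD1 (by simp only [mem_rs] at *; omega))
  have e1 := P_eq ((loc_HC 0 a 0 b).mono hQ)
  have hs : ∑ e ∈ L.sym2, ((r e * (T / 2 ^ (i + 1)) : ℝ≥0) : ℝ) ≤ 1 / 2 := by
    push_cast
    rw [← sum_mul, ← mul_div_assoc, div_le_iff₀ p2]
    linarith
  have hE : ∀ x ∈ dm a b, s(x, pt b x) ∈ L.sym2 := fun x hx => by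
    obtain ⟨⟨a1, a2, -⟩, ⟨a3, a4, -⟩, -⟩ := mem_dm.1 hx
    have e := adj_pt b x
    refine mk_mem_sym2_iff.2 ⟨hn _ (hD1 ?_), hn _ (hD1 ?_)⟩ <;>
    · simp only [mem_rs, adj] at *
      omega
  have k0 : (0:ℝ) < κ := hκ
  have t0 : (0:ℝ) < K * T := by exact_mod_cast ht
  have key := chain_cov (σ := swe) (L := L) (E := L.sym2)
    (q := fun e => 1 - Real.exp (-(r e * (T / 2 ^ (i + 1)) : ℝ≥0)))
    (fun e _ => ⟨sub_nonneg.2 (Real.exp_le_one_iff.2 (neg_nonpos.2 NNReal.zero_le_coe)),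
      sub_le_self _ (Real.exp_pos _).le⟩) swe_inv.1 swe_inv.2 hE pt_inj
    (w := κ * (T / 2 ^ (i + 1)) / 2) (by positivity) (fun x hx => ?_) ?_
    (f := fun T => ind (HC 0 a 0 b T) - P (HC 0 a 0 b))
    (Ex_le_const fun T _ => sq_centre (P_nonneg _) (P_le_one _)) (k := K * 2 ^ i)
    (κ := κ * (K * T) / 4) (by positivity) (le_of_eq (by push_cast; field_simp; ring)) (hv L hn)
  · refine Real.abs_le_sqrt ?_
    rw [Ev_law h, show K * 2 ^ (i + 1) = 2 * (K * 2 ^ i) by ring]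
    rw [iter_sub, one_div_div] at key
    simp only [sub_mul, mul_sub, Ex_sub, Ex_mul_left, Ex_mul_right, Ex_const] at key
    rw [Ex_iter swe_inv.1 swe_inv.2, e1, sub_self, sub_zero, ← sq] at key
    rw [NNReal.coe_mul (K : ℝ≥0), NNReal.coe_natCast]
    exact key
  · refine le_trans ?_ (wt_single (l := fun e => (r e * (T / 2 ^ (i + 1)) : ℝ≥0))
      (fun _ => NNReal.zero_le_coe) hs (hE x hx))
    have : (κ : ℝ) ≤ r s(x, pt b x) := hr x _ (adj_pt b x)
    push_cast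
    gcongr
  · refine le_trans ?_ (wt_empty (l := fun e => (r e * (T / 2 ^ (i + 1)) : ℝ≥0)) hs)
    rw [← mul_div_assoc, ← mul_div_assoc, ← mul_div_assoc]
    gcongr
    rwa [div_le_one p2]

theorem tri_adj {x y : V} : tri.Adj x y ↔ adj x y := by
  have k : ∀ x y : V, ‖emb x - emb y‖ = 1 → adj x y := fun x y h => by
    have e := norm_emb_sq x y
    rw [h, one_pow] at e
    norm_cast at e
    obtain ⟨s, hs⟩ : ∃ s, s = x.1 - y.1 := ⟨_, rfl⟩
    obtain ⟨t, ht⟩ : ∃ t, t = x.2 - y.2 := ⟨_, rfl⟩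
    rw [← hs, ← ht] at e
    have s1 : -1 ≤ s ∧ s ≤ 1 := by constructor <;> nlinarith [sq_nonneg (s + 2 * t)]
    have t1 : -1 ≤ t ∧ t ≤ 1 := by constructor <;> nlinarith [sq_nonneg (t + 2 * s)]
    obtain ⟨s1, s2⟩ := s1
    obtain ⟨t1, t2⟩ := t1
    unfold adj
    interval_cases s <;> interval_cases t <;> omega
  exact ⟨fun h => h.2.elim (k x y) fun h => (k y x h).symm,
    fun h => ⟨h.ne, Or.inl (norm_emb_of_adj h)⟩⟩

theorem cross_iff {a b : ℕ} {S : Set V} : Cross a b S ↔ HC 0 a 0 b S := by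
  have e : box a b = rs 0 a 0 b := by
    ext v; simp only [box, Set.mem_prod, Set.mem_Icc, mem_rs, and_assoc]
  rw [Cross, e, HC_iff]
  constructor
  · rintro ⟨l, r, h1, h2, ⟨p⟩⟩
    refine ⟨l, r, h1, h2, ?_⟩
    clear h1 h2
    induction p with
    | nil => exact .refl (Subtype.prop _)
    | cons h _ ih => exact .head (Subtype.prop _) (tri_adj.1 h) ih
  · rintro ⟨l, r, h1, h2, c⟩
    refine ⟨⟨l, c.left⟩, ⟨r, c.right⟩, h1, h2, ?_⟩
    clear h1 h2
    induction c with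
    | refl _ => rfl
    | step h1 h2 h3 ih => exact ih.trans (SimpleGraph.Adj.reachable (tri_adj.2 h2))

/-- the variational bound decays like a power of the width -/
theorem var_pow : ∃ ε C : ℝ, 0 < ε ∧ 0 < C ∧ ∀ a b : ℕ, 64 ≤ a → 64 ≤ b → ∀ L : Finset V,
    (∀ v ∈ rs (-a) (2 * a) (-a) (b + a), v ∈ L) → ∀ g : Finset V → ℝ,
      2 * Ex L (fun T => (ind (HC 0 a 0 b T) - P (HC 0 a 0 b)) * g T) - Ex L (fun T => g T ^ 2) -
        1 / 2 * ∑ x ∈ dm a b, Ex L (fun T => (g T - g (sw x (pt b x) T)) ^ 2) ≤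
        (C * (a : ℝ) ^ (-ε)) ^ 2 := by
  obtain ⟨c, c0, h1⟩ := var_cross
  obtain ⟨C, h, C0, h0, hh, h2⟩ := res_cross
  have l64 : 0 < Real.log 64 := Real.log_pos (by norm_num)
  have lh : Real.log h < 0 := Real.log_neg h0 hh
  obtain ⟨ε, hε⟩ : ∃ ε, ε = -Real.log h / (2 * Real.log 64) := ⟨_, rfl⟩
  have ε0 : 0 < ε := hε ▸ div_pos (by linarith) (by positivity)
  refine ⟨ε, √(C / c) / h, ε0, by positivity, fun a b ha hb L hL g => ?_⟩
  obtain ⟨r, r1, r2⟩ : ∃ r, 64 ^ (r + 1) ≤ a ∧ a < 64 ^ (r + 2) := by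
    have e1 := Nat.pow_log_le_self 64 (x := a) (by omega)
    have e2 := Nat.lt_pow_succ_log_self (b := 64) (by norm_num) a
    have e3 : 0 < Nat.log 64 a := Nat.log_pos (by norm_num) ha
    obtain ⟨r, hr⟩ : ∃ r, Nat.log 64 a = r + 1 := ⟨Nat.log 64 a - 1, by omega⟩
    rw [hr] at e1 e2
    exact ⟨r, e1, e2⟩
  have r3 : 4 ^ (3 * r + 2) ≤ a := by
    refine le_trans ?_ r1
    rw [show 64 = 4 ^ 3 by norm_num, ← pow_mul]
    exact Nat.pow_le_pow_right (by norm_num) (by omega)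
  refine (h1 a b L _ (by omega) (by omega) (fun v hv => hL v (by
    simp only [mem_rs] at *; omega)) g).trans ?_
  have a0 : (0:ℝ) < a := by exact_mod_cast (show 0 < a by omega)
  have k1 : h ^ (r + 2) ≤ ((a : ℝ) ^ (-ε)) ^ 2 := by
    have e1 : Real.log a ≤ (r + 2) * Real.log 64 := by
      have : (a : ℝ) ≤ 64 ^ (r + 2) := by exact_mod_cast r2.le
      have := Real.log_le_log a0 this
      rwa [Real.log_pow, Nat.cast_add, Nat.cast_two] at this
    rw [Real.rpow_def_of_pos a0, ← Real.exp_nat_mul, ← Real.exp_log (pow_pos h0 (r + 2)),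
      Real.log_pow, Real.exp_le_exp]
    have e2 : Real.log h = -(2 * ε * Real.log 64) := by rw [hε]; field_simp
    rw [e2]
    push_cast
    nlinarith [mul_le_mul_of_nonneg_left e1 ε0.le]
  rw [mul_pow, div_pow, Real.sq_sqrt (by positivity)]
  calc _ ≤ C * h ^ r / c := by gcongr; exact h2 r a b L r3 hL
    _ = C / c / h ^ 2 * h ^ (r + 2) := by rw [pow_add]; field_simp
    _ ≤ _ := by gcongr

end Pool.Agent.Lib.MP_e26b79_ns
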